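import Mathlib

set_option autoImplicit false

namespace Pool.Agent.Work.MP_416390_gt

/-- The determinant of three vectors of `ℝ³`. -/
def det3 (a b c : Fin 3 → ℝ) : ℝ :=
  a 0 * (b 1 * c 2 - b 2 * c 1) - a 1 * (b 0 * c 2 - b 2 * c 0) + a 2 * (b 0 * c 1 - b 1 * c 0)

/-! ### Linear and quadratic forms given by integer lists -/

def dot : List ℤ → (ℕ → ℝ) → ℕ → ℝ
  | [], _, _ => 0
  | a :: u, P, s => a * P s + dot u P (s + 1)

/-- Upper triangular quadratic form: row `r` of the list holds the coefficients of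
`P (s+r) * P (s+r)`, `P (s+r) * P (s+r+1)`, and so on. -/
def qf : List (List ℤ) → (ℕ → ℝ) → ℕ → ℝ
  | [], _, _ => 0
  | r :: U, P, s => P s * dot r P s + qf U P (s + 1)

def addAt : ℕ → ℤ → List ℤ → List ℤ
  | 0, c, [] => [c]
  | 0, c, a :: u => (a + c) :: u
  | j + 1, c, [] => 0 :: addAt j c []
  | j + 1, c, a :: u => a :: addAt j c u

theorem dot_addAt (j : ℕ) (c : ℤ) (u : List ℤ) (P : ℕ → ℝ) (s : ℕ) :
    dot (addAt j c u) P s = dot u P s + c * P (s + j) := by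
  induction j generalizing u s with
  | zero =>
    cases u with
    | nil => simp [addAt, dot]
    | cons a u => simp [addAt, dot]; ring
  | succ j ih =>
    cases u with
    | nil =>
      have h := ih [] (s + 1)
      simp only [addAt, dot] at h ⊢
      rw [h, show s + 1 + j = s + (j + 1) by ring]; push_cast; ring
    | cons a u =>
      have h := ih u (s + 1)
      simp only [addAt, dot] at h ⊢
      rw [h, show s + 1 + j = s + (j + 1) by ring]; ring

def addQ : ℕ → ℕ → ℤ → List (List ℤ) → List (List ℤ)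
  | 0, d, c, [] => [addAt d c []]
  | 0, d, c, r :: U => addAt d c r :: U
  | i + 1, d, c, [] => [] :: addQ i d c []
  | i + 1, d, c, r :: U => r :: addQ i d c U

theorem qf_addQ (i d : ℕ) (c : ℤ) (U : List (List ℤ)) (P : ℕ → ℝ) (s : ℕ) :
    qf (addQ i d c U) P s = qf U P s + c * P (s + i) * P (s + i + d) := by
  induction i generalizing U s with
  | zero =>
    cases U with
    | nil => simp [addQ, qf, dot_addAt, dot]; ring
    | cons r U => simp [addQ, qf, dot_addAt]; ring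
  | succ i ih =>
    cases U with
    | nil =>
      have h := ih [] (s + 1)
      simp only [addQ, qf, dot] at h ⊢
      rw [h, show s + 1 + i = s + (i + 1) by ring]; ring
    | cons r U =>
      have h := ih U (s + 1)
      simp only [addQ, qf] at h ⊢
      rw [h, show s + 1 + i = s + (i + 1) by ring]; ring

/-- Add `c * P i * P j`. -/
def addPP (c : ℤ) (i j : ℕ) (U : List (List ℤ)) : List (List ℤ) :=
  if i ≤ j then addQ i (j - i) c U else addQ j (i - j) c U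

theorem qf_addPP (c : ℤ) (i j : ℕ) (U : List (List ℤ)) (P : ℕ → ℝ) :
    qf (addPP c i j U) P 0 = qf U P 0 + c * P i * P j := by
  unfold addPP
  split_ifs with h
  · rw [qf_addQ]; simp only [zero_add]; rw [Nat.add_sub_cancel' h]
  · rw [qf_addQ]; simp only [zero_add]; rw [Nat.add_sub_cancel' (by omega)]; ring

def addL : List ℤ → List ℤ → List ℤ
  | [], v => v
  | a :: u, [] => a :: u
  | a :: u, b :: v => (a + b) :: addL u v

theorem dot_addL (u v : List ℤ) (P : ℕ → ℝ) (s : ℕ) :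
    dot (addL u v) P s = dot u P s + dot v P s := by
  induction u generalizing v s with
  | nil => simp [addL, dot]
  | cons a u ih =>
    cases v with
    | nil => simp [addL, dot]
    | cons b v => simp only [addL, dot, ih]; push_cast; ring

def scal (c : ℤ) : List ℤ → List ℤ
  | [] => []
  | a :: u => (c * a) :: scal c u

theorem dot_scal (c : ℤ) (u : List ℤ) (P : ℕ → ℝ) (s : ℕ) :
    dot (scal c u) P s = c * dot u P s := by
  induction u generalizing s with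
  | nil => simp [scal, dot]
  | cons a u ih => simp only [scal, dot, ih]; push_cast; ring

/-- Subtract `c` times the square of the linear form `b`. -/
def subSq (c : ℤ) : List ℤ → List (List ℤ) → List (List ℤ)
  | [], U => U
  | b :: bs, [] => ((-(c * b * b)) :: scal (-(2 * c * b)) bs) :: subSq c bs []
  | b :: bs, r :: U => addL r ((-(c * b * b)) :: scal (-(2 * c * b)) bs) :: subSq c bs U

theorem qf_subSq (c : ℤ) (b : List ℤ) (U : List (List ℤ)) (P : ℕ → ℝ) (s : ℕ) :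
    qf (subSq c b U) P s = qf U P s - c * (dot b P s) ^ 2 := by
  induction b generalizing U s with
  | nil => simp [subSq, dot]
  | cons b bs ih =>
    cases U with
    | nil =>
      have h := ih [] (s + 1)
      simp only [subSq, qf, dot, dot_scal] at h ⊢
      rw [h]; push_cast; ring
    | cons r U =>
      have h := ih U (s + 1)
      simp only [subSq, qf, dot, dot_scal, dot_addL] at h ⊢
      rw [h]; push_cast; ring

/-- All entries are at most `τ` in absolute value. -/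
def small (τ : ℤ) : List ℤ → Bool
  | [] => true
  | a :: u => (decide (-τ ≤ a) && decide (a ≤ τ)) && small τ u

def sumSq (P : ℕ → ℝ) (s : ℕ) : ℕ → ℝ
  | 0 => 0
  | n + 1 => P s ^ 2 + sumSq P (s + 1) n

theorem sumSq_nonneg (P : ℕ → ℝ) (s n : ℕ) : 0 ≤ sumSq P s n := by
  induction n generalizing s with
  | zero => simp [sumSq]
  | succ n ih => simp only [sumSq]; have := ih (s + 1); positivity

theorem small_bound (τ : ℤ) (hτ : 0 ≤ τ) (u : List ℤ) (h : small τ u = true) (P : ℕ → ℝ)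
    (x : ℝ) (s n : ℕ) (hn : u.length ≤ n) :
    -(τ / 2 * (n * x ^ 2 + sumSq P s n)) ≤ x * dot u P s := by
  induction u generalizing s n with
  | nil =>
    simp only [dot, mul_zero, Left.neg_nonpos_iff]
    have h1 : (0 : ℝ) ≤ τ := by exact_mod_cast hτ
    have h2 := sumSq_nonneg P s n
    positivity
  | cons a u ih =>
    obtain ⟨n, rfl⟩ : ∃ m, n = m + 1 := ⟨n - 1, by simp at hn; omega⟩
    simp only [small, Bool.and_eq_true, decide_eq_true_eq] at h
    obtain ⟨⟨h1, h2⟩, h3⟩ := h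
    have h4 := ih h3 (s + 1) n (by simp at hn; omega)
    simp only [dot, sumSq]
    have h1' : -(τ : ℝ) ≤ a := by exact_mod_cast h1
    have h2' : (a : ℝ) ≤ τ := by exact_mod_cast h2
    have h5 : -(τ / 2 * (x ^ 2 + P s ^ 2)) ≤ x * (a * P s) := by
      nlinarith [mul_nonneg (sub_nonneg.2 h2') (sq_nonneg (x - P s)),
        mul_nonneg (sub_nonneg.2 h2') (sq_nonneg (x + P s)),
        mul_nonneg (show (0 : ℝ) ≤ a + τ by linarith) (sq_nonneg (x + P s)),
        mul_nonneg (show (0 : ℝ) ≤ a + τ by linarith) (sq_nonneg (x - P s))]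
    push_cast
    nlinarith

def chk (τ δ : ℤ) : List (List ℤ) → List (List ℤ) → Bool
  | [], [] => true
  | [], _ :: _ => false
  | b :: B, U =>
    match subSq 1 b U with
    | (e :: es) :: U' =>
      (decide (δ ≤ e) && small τ es) && (decide (es.length ≤ B.length) && chk τ δ B U')
    | _ => false

theorem chk_sound (τ δ : ℤ) (hτ : 0 ≤ τ) (B : List (List ℤ)) (U : List (List ℤ))
    (P : ℕ → ℝ) (s : ℕ) (h : chk τ δ B U = true) :
    ((δ : ℝ) - τ / 2 * ((B.length : ℝ) - 1)) * sumSq P s B.length ≤ qf U P s := by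
  induction B generalizing U s with
  | nil =>
    cases U with
    | nil => simp [sumSq, qf]
    | cons r U => simp [chk] at h
  | cons b B ih =>
    have hq := qf_subSq 1 b U P s
    unfold chk at h
    split at h
    · rename_i e es U' heq
      rw [heq] at hq
      simp only [Bool.and_eq_true, decide_eq_true_eq] at h
      obtain ⟨⟨h1, h2⟩, h3, h4⟩ := h
      have h5 := ih U' (s + 1) h4
      have h6 := small_bound τ hτ es h2 P (P s) (s + 1) B.length h3
      have h1' : (δ : ℝ) ≤ e := by exact_mod_cast h1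
      have h7 : (δ : ℝ) * P s ^ 2 ≤ e * P s ^ 2 := mul_le_mul_of_nonneg_right h1' (sq_nonneg _)
      simp only [qf, dot, Int.cast_one, one_mul] at hq
      simp only [List.length_cons, sumSq]
      push_cast
      have h8 := sq_nonneg (dot b P s)
      have h9 := sumSq_nonneg P (s + 1) B.length
      nlinarith
    · simp at h

/-! ### The list of triples and the antisymmetric indexing -/

def tri : List (ℕ × ℕ × ℕ) :=
  [(0,1,2),(0,1,3),(0,1,4),(0,1,5),(0,1,6),(0,2,3),(0,2,4),(0,2,5),(0,2,6),(0,3,4),(0,3,5),(0,3,6),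
   (0,4,5),(0,4,6),(0,5,6),(1,2,3),(1,2,4),(1,2,5),(1,2,6),(1,3,4),(1,3,5),(1,3,6),(1,4,5),(1,4,6),
   (1,5,6),(2,3,4),(2,3,5),(2,3,6),(2,4,5),(2,4,6),(2,5,6),(3,4,5),(3,4,6),(3,5,6),(4,5,6)]

/-- The position of the sorted triple `a < b < c < 7` in `tri`. -/
def rk (a b c : ℕ) : ℕ :=
  (35 - (7 - a) * (6 - a) * (5 - a) / 6) + ((6 - a) * (5 - a) / 2 - (7 - b) * (6 - b) / 2)
    + (c - b - 1)

theorem tri_rk : ∀ c < 7, ∀ b < c, ∀ a < b, tri.getD (rk a b c) (0, 0, 0) = (a, b, c) := by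
  decide

/-- Sign and index of the minor with (not necessarily sorted) columns `i, j, k`. -/
def pidx (i j k : ℕ) : ℤ × ℕ :=
  if i < j then
    if j < k then (1, rk i j k)
    else if k < j then
      if i < k then (-1, rk i k j)
      else if k < i then (1, rk k i j) else (0, 0)
    else (0, 0)
  else if j < i then
    if i < k then (-1, rk j i k)
    else if k < i then
      if j < k then (1, rk j k i)
      else if k < j then (-1, rk k j i) else (0, 0)
    else (0, 0)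
  else (0, 0)

/-- The minors of `V`, indexed by the positions in `tri`. -/
def minors (V : ℕ → Fin 3 → ℝ) (n : ℕ) : ℝ :=
  det3 (V (tri.getD n (0, 0, 0)).1) (V (tri.getD n (0, 0, 0)).2.1) (V (tri.getD n (0, 0, 0)).2.2)

theorem minors_rk (V : ℕ → Fin 3 → ℝ) {a b c : ℕ} (hab : a < b) (hbc : b < c) (hc : c < 7) :
    minors V (rk a b c) = det3 (V a) (V b) (V c) := by
  unfold minors
  rw [tri_rk c hc b hbc a hab]

theorem det3_pidx (V : ℕ → Fin 3 → ℝ) {i j k : ℕ} (hi : i < 7) (hj : j < 7) (hk : k < 7) :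
    det3 (V i) (V j) (V k) = ((pidx i j k).1 : ℝ) * minors V (pidx i j k).2 := by
  unfold pidx
  split_ifs with h1 h2 h3 h4 h5 h6 h7 h8 h9 h10
  · rw [minors_rk V h1 h2 hk]; simp
  · rw [minors_rk V h4 h3 hj]; simp only [det3]; push_cast; ring
  · rw [minors_rk V h5 h1 hj]; simp only [det3]; push_cast; ring
  · obtain rfl : i = k := by omega
    simp only [det3]; push_cast; ring
  · obtain rfl : j = k := by omega
    simp only [det3]; push_cast; ring
  · rw [minors_rk V h6 h7 hk]; simp only [det3]; push_cast; ring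
  · rw [minors_rk V h9 h8 hi]; simp only [det3]; push_cast; ring
  · rw [minors_rk V h10 h6 hi]; simp only [det3]; push_cast; ring
  · obtain rfl : j = k := by omega
    simp only [det3]; push_cast; ring
  · obtain rfl : i = k := by omega
    simp only [det3]; push_cast; ring
  · obtain rfl : i = j := by omega
    simp only [det3]; push_cast; ring

/-- The Plücker relation. -/
theorem plucker (x y a b c d : Fin 3 → ℝ) :
    det3 x y a * det3 b c d - det3 x y b * det3 a c d + det3 x y c * det3 a b d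
      - det3 x y d * det3 a b c = 0 := by
  simp only [det3]; ring

def addPair (l : ℤ) (u v : ℤ × ℕ) (U : List (List ℤ)) : List (List ℤ) :=
  addPP (l * u.1 * v.1) u.2 v.2 U

theorem qf_addPair (V : ℕ → Fin 3 → ℝ) (l : ℤ) {x y z a b c : ℕ} (hx : x < 7) (hy : y < 7)
    (hz : z < 7) (ha : a < 7) (hb : b < 7) (hc : c < 7) (U : List (List ℤ)) :
    qf (addPair l (pidx x y z) (pidx a b c) U) (minors V) 0 =
      qf U (minors V) 0 + l * (det3 (V x) (V y) (V z) * det3 (V a) (V b) (V c)) := by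
  unfold addPair
  rw [qf_addPP, det3_pidx V hx hy hz, det3_pidx V ha hb hc]
  push_cast; ring

/-- Add `l` times the Plücker relation with indices `r`. -/
def addRel (l : ℤ) (r : ℕ × ℕ × ℕ × ℕ × ℕ × ℕ) (U : List (List ℤ)) : List (List ℤ) :=
  match r with
  | (x, y, a, b, c, d) =>
    addPair (-l) (pidx x y d) (pidx a b c)
      (addPair l (pidx x y c) (pidx a b d)
        (addPair (-l) (pidx x y b) (pidx a c d)
          (addPair l (pidx x y a) (pidx b c d) U)))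

def relOK (r : ℕ × ℕ × ℕ × ℕ × ℕ × ℕ) : Bool :=
  match r with
  | (x, y, a, b, c, d) => x < 7 && y < 7 && a < 7 && b < 7 && c < 7 && d < 7

theorem qf_addRel (V : ℕ → Fin 3 → ℝ) (l : ℤ) (r : ℕ × ℕ × ℕ × ℕ × ℕ × ℕ) (hr : relOK r = true)
    (U : List (List ℤ)) : qf (addRel l r U) (minors V) 0 = qf U (minors V) 0 := by
  obtain ⟨x, y, a, b, c, d⟩ := r
  simp only [relOK, Bool.and_eq_true, decide_eq_true_eq] at hr
  obtain ⟨⟨⟨⟨⟨hx, hy⟩, ha⟩, hb⟩, hc⟩, hd⟩ := hr
  simp only [addRel]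
  rw [qf_addPair V _ hx hy hd ha hb hc, qf_addPair V _ hx hy hc ha hb hd,
    qf_addPair V _ hx hy hb ha hc hd, qf_addPair V _ hx hy ha hb hc hd]
  have := plucker (V x) (V y) (V a) (V b) (V c) (V d)
  push_cast
  linear_combination (l : ℝ) * this

def addRels : List ℤ → List (ℕ × ℕ × ℕ × ℕ × ℕ × ℕ) → List (List ℤ) → List (List ℤ)
  | l :: ls, r :: rs, U => if relOK r then addRels ls rs (addRel l r U) else addRels ls rs U
  | _, _, U => U

theorem qf_addRels (V : ℕ → Fin 3 → ℝ) (ls : List ℤ) (rs : List (ℕ × ℕ × ℕ × ℕ × ℕ × ℕ))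
    (U : List (List ℤ)) : qf (addRels ls rs U) (minors V) 0 = qf U (minors V) 0 := by
  induction ls generalizing rs U with
  | nil => simp [addRels]
  | cons l ls ih =>
    cases rs with
    | nil => simp [addRels]
    | cons r rs =>
      simp only [addRels]
      split_ifs with h
      · rw [ih, qf_addRel V l r h]
      · rw [ih]

/-- Diagonal form with coefficients `L + μ i + μ j + μ k`. -/
def diagForm (L : ℤ) (mu : List ℤ) : List (ℕ × ℕ × ℕ) → List (List ℤ)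
  | [] => []
  | (i, j, k) :: T => [L + mu.getD i 0 + mu.getD j 0 + mu.getD k 0] :: diagForm L mu T

structure Cert where
  eps : List ℤ
  L : ℤ
  mu : List ℤ
  lam : List ℤ
  B : List (List ℤ)
  tau : ℤ
  delta : ℤ
  S : ℤ

def rels : List (ℕ × ℕ × ℕ × ℕ × ℕ × ℕ) := 
  [(1,0,2,3,4,0),(1,0,2,3,5,0),(1,0,2,3,6,0),(1,0,2,4,5,0),(1,0,2,4,6,0),(1,0,2,5,6,0),(1,0,3,4,5,0),
   (1,0,3,4,6,0),(1,0,3,5,6,0),(1,0,4,5,6,0),(2,0,3,4,5,0),(2,0,3,4,6,0),(2,0,3,5,6,0),(2,0,4,5,6,0),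
   (3,0,4,5,6,0),(0,1,2,3,4,1),(0,1,2,3,5,1),(0,1,2,3,6,1),(0,1,2,4,5,1),(0,1,2,4,6,1),(0,1,2,5,6,1),
   (0,1,3,4,5,1),(0,1,3,4,6,1),(0,1,3,5,6,1),(0,1,4,5,6,1),(2,1,3,4,5,1),(2,1,3,4,6,1),(2,1,3,5,6,1),
   (2,1,4,5,6,1),(3,1,4,5,6,1),(0,2,1,3,4,2),(0,2,1,3,5,2),(0,2,1,3,6,2),(0,2,1,4,5,2),(0,2,1,4,6,2),
   (0,2,1,5,6,2),(0,2,3,4,5,2),(0,2,3,4,6,2),(0,2,3,5,6,2),(0,2,4,5,6,2),(1,2,3,4,5,2),(1,2,3,4,6,2),
   (1,2,3,5,6,2),(1,2,4,5,6,2),(3,2,4,5,6,2),(0,3,1,2,4,3),(0,3,1,2,5,3),(0,3,1,2,6,3),(0,3,1,4,5,3),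
   (0,3,1,4,6,3),(0,3,1,5,6,3),(0,3,2,4,5,3),(0,3,2,4,6,3),(0,3,2,5,6,3),(0,3,4,5,6,3),(1,3,2,4,5,3),
   (1,3,2,4,6,3),(1,3,2,5,6,3),(1,3,4,5,6,3),(2,3,4,5,6,3),(0,4,1,2,3,4),(0,4,1,2,5,4),(0,4,1,2,6,4),
   (0,4,1,3,5,4),(0,4,1,3,6,4),(0,4,1,5,6,4),(0,4,2,3,5,4),(0,4,2,3,6,4),(0,4,2,5,6,4),(0,4,3,5,6,4),
   (1,4,2,3,5,4),(1,4,2,3,6,4),(1,4,2,5,6,4),(1,4,3,5,6,4),(2,4,3,5,6,4),(0,5,1,2,3,5),(0,5,1,2,4,5),
   (0,5,1,2,6,5),(0,5,1,3,4,5),(0,5,1,3,6,5),(0,5,1,4,6,5),(0,5,2,3,4,5),(0,5,2,3,6,5),(0,5,2,4,6,5),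
   (0,5,3,4,6,5),(1,5,2,3,4,5),(1,5,2,3,6,5),(1,5,2,4,6,5),(1,5,3,4,6,5),(2,5,3,4,6,5),(0,6,1,2,3,6),
   (0,6,1,2,4,6),(0,6,1,2,5,6),(0,6,1,3,4,6),(0,6,1,3,5,6),(0,6,1,4,5,6),(0,6,2,3,4,6),(0,6,2,3,5,6),
   (0,6,2,4,5,6),(0,6,3,4,5,6),(1,6,2,3,4,6),(1,6,2,3,5,6),(1,6,2,4,5,6),(1,6,3,4,5,6),(2,6,3,4,5,6),
   (1,2,3,4,5,6),(1,3,2,4,5,6),(1,4,2,3,5,6),(1,5,2,3,4,6),(1,6,2,3,4,5),(0,2,3,4,5,6),(0,3,2,4,5,6),
   (0,4,2,3,5,6),(0,5,2,3,4,6),(0,6,2,3,4,5),(0,1,3,4,5,6),(0,3,1,4,5,6),(0,4,1,3,5,6),(0,5,1,3,4,6),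
   (0,6,1,3,4,5),(0,1,2,4,5,6),(0,2,1,4,5,6),(0,4,1,2,5,6),(0,5,1,2,4,6),(0,6,1,2,4,5),(0,1,2,3,5,6),
   (0,2,1,3,5,6),(0,3,1,2,5,6),(0,5,1,2,3,6),(0,6,1,2,3,5),(0,1,2,3,4,6),(0,2,1,3,4,6),(0,3,1,2,4,6),
   (0,4,1,2,3,6),(0,6,1,2,3,4),(0,1,2,3,4,5),(0,2,1,3,4,5),(0,3,1,2,4,5),(0,4,1,2,3,5),(0,5,1,2,3,4)]

def Cert.check (C : Cert) : Bool :=
  (decide (0 ≤ C.tau) && decide (17 * C.tau ≤ C.delta)) &&
  (decide (C.B.length = 35) &&
    chk C.tau C.delta C.B (subSq C.S C.eps (addRels C.lam rels (diagForm C.L C.mu tri))))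

theorem Cert.sound (C : Cert) (h : C.check = true) (V : ℕ → Fin 3 → ℝ) :
    (C.S : ℝ) * (dot C.eps (minors V) 0) ^ 2 ≤ qf (diagForm C.L C.mu tri) (minors V) 0 := by
  simp only [Cert.check, Bool.and_eq_true, decide_eq_true_eq] at h
  obtain ⟨⟨h1, h2⟩, h3, h4⟩ := h
  have h5 := chk_sound C.tau C.delta h1 C.B _ (minors V) 0 h4
  rw [qf_subSq, qf_addRels, h3] at h5
  have h6 := sumSq_nonneg (minors V) 0 35
  have h7 : (17 * C.tau : ℝ) ≤ C.delta := by exact_mod_cast h2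
  have h8 : 0 ≤ ((C.delta : ℝ) - C.tau / 2 * (((35 : ℕ) : ℝ) - 1)) := by push_cast; linarith
  have h9 := mul_nonneg h8 h6
  linarith

end Pool.Agent.Work.MP_416390_gt
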