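import Pool.Agent.Work.MP_416390_gt.Classify
import Pool.Agent.Work.MP_416390_gt.DataA
import Pool.Agent.Work.MP_416390_gt.DataB
import Pool.Agent.Work.MP_416390_gt.DataC

set_option autoImplicit false

open Finset

namespace Pool.Agent.Work.MP_416390_gt

/-! ### Sums over ordered triples -/

noncomputable def T1 (V : ℕ → Fin 3 → ℝ) : ℝ :=
  ∑ i ∈ range 7, ∑ j ∈ range 7, ∑ k ∈ range 7, |det3 (V i) (V j) (V k)|

noncomputable def T2 (V : ℕ → Fin 3 → ℝ) : ℝ :=
  ∑ i ∈ range 7, ∑ j ∈ range 7, ∑ k ∈ range 7, det3 (V i) (V j) (V k) ^ 2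

noncomputable def TA (V : ℕ → Fin 3 → ℝ) (i : ℕ) : ℝ :=
  ∑ j ∈ range 7, ∑ k ∈ range 7, det3 (V i) (V j) (V k) ^ 2

/-- The inequality to be proved for all `V`. -/
def MI (V : ℕ → Fin 3 → ℝ) : Prop :=
  (T1 V / 6) ^ 2 ≤ 31395 / 1000 * (T2 V / 6) +
    ∑ i ∈ range 7, |TA V i / 2 - 3 / 7 * (T2 V / 6)|

theorem pidx_lt : ∀ i < 7, ∀ j < 7, ∀ k < 7, (pidx i j k).2 < 35 := by decide +kernel

theorem pidx_sq : ∀ i < 7, ∀ j < 7, ∀ k < 7, (pidx i j k).1 = 0 ∨ (pidx i j k).1 = 1 ∨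
    (pidx i j k).1 = -1 := by decide +kernel

/-- The weight of the triple `(i,j,k)` at position `n`. -/
def wt (n i j k : ℕ) : ℤ := if (pidx i j k).2 = n then (pidx i j k).1 ^ 2 else 0

theorem wt_sum6 : ∀ n < 35, (∑ i ∈ range 7, ∑ j ∈ range 7, ∑ k ∈ range 7, wt n i j k) = 6 := by
  decide +kernel

def memTri (i n : ℕ) : Bool :=
  Nat.beq i (tri.getD n (0,0,0)).1 || Nat.beq i (tri.getD n (0,0,0)).2.1 ||
    Nat.beq i (tri.getD n (0,0,0)).2.2

theorem wt_sum2 : ∀ i < 7, ∀ n < 35, (∑ j ∈ range 7, ∑ k ∈ range 7, wt n i j k) =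
    if memTri i n then 2 else 0 := by
  decide +kernel

theorem term_eq (g : ℕ → ℝ) {i j k : ℕ} (hi : i ∈ range 7) (hj : j ∈ range 7) (hk : k ∈ range 7) :
    ((pidx i j k).1 : ℝ) ^ 2 * g (pidx i j k).2 = ∑ n ∈ range 35, (wt n i j k : ℝ) * g n := by
  rw [mem_range] at hi hj hk
  have h := pidx_lt i hi j hj k hk
  rw [Finset.sum_eq_single (pidx i j k).2]
  · simp [wt]
  · intro n _ hn
    simp [wt, hn.symm]
  · intro hn
    exact absurd (mem_range.2 h) hn

theorem sum6 (g : ℕ → ℝ) :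
    ∑ i ∈ range 7, ∑ j ∈ range 7, ∑ k ∈ range 7, ((pidx i j k).1 : ℝ) ^ 2 * g (pidx i j k).2
      = 6 * ∑ n ∈ range 35, g n := by
  have h1 : ∀ i ∈ range 7, ∀ j ∈ range 7, ∀ k ∈ range 7,
      ((pidx i j k).1 : ℝ) ^ 2 * g (pidx i j k).2 = ∑ n ∈ range 35, (wt n i j k : ℝ) * g n :=
    fun i hi j hj k hk => term_eq g hi hj hk
  rw [Finset.sum_congr rfl fun i hi => Finset.sum_congr rfl fun j hj =>
    Finset.sum_congr rfl fun k hk => h1 i hi j hj k hk]
  have h2 : ∀ i ∈ range 7, (∑ j ∈ range 7, ∑ k ∈ range 7, ∑ n ∈ range 35, (wt n i j k : ℝ) * g n)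
      = ∑ n ∈ range 35, ∑ j ∈ range 7, ∑ k ∈ range 7, (wt n i j k : ℝ) * g n := by
    intro i _
    rw [Finset.sum_congr rfl fun j _ => Finset.sum_comm]
    rw [Finset.sum_comm]
  rw [Finset.sum_congr rfl h2, Finset.sum_comm, Finset.mul_sum]
  refine Finset.sum_congr rfl fun n hn => ?_
  have h3 := wt_sum6 n (mem_range.1 hn)
  have h4 : (∑ i ∈ range 7, ∑ j ∈ range 7, ∑ k ∈ range 7, (wt n i j k : ℝ)) = 6 := by
    exact_mod_cast h3
  rw [← h4]
  simp only [Finset.sum_mul]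

theorem sum2 (g : ℕ → ℝ) {i : ℕ} (hi : i ∈ range 7) :
    ∑ j ∈ range 7, ∑ k ∈ range 7, ((pidx i j k).1 : ℝ) ^ 2 * g (pidx i j k).2
      = 2 * ∑ n ∈ range 35, if memTri i n then g n else 0 := by
  rw [Finset.sum_congr rfl fun j hj => Finset.sum_congr rfl fun k hk => term_eq g hi hj hk]
  rw [Finset.sum_congr rfl fun j _ => Finset.sum_comm]
  rw [Finset.sum_comm, Finset.mul_sum]
  refine Finset.sum_congr rfl fun n hn => ?_
  have h3 := wt_sum2 i (mem_range.1 hi) n (mem_range.1 hn)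
  have h4 : (∑ j ∈ range 7, ∑ k ∈ range 7, (wt n i j k : ℝ)) = if memTri i n then 2 else 0 := by
    exact_mod_cast h3
  simp only [← Finset.sum_mul]
  rw [h4]
  split_ifs <;> simp

theorem T1_eq (V : ℕ → Fin 3 → ℝ) : T1 V = 6 * ∑ n ∈ range 35, |minors V n| := by
  rw [← sum6]
  refine Finset.sum_congr rfl fun i hi => Finset.sum_congr rfl fun j hj =>
    Finset.sum_congr rfl fun k hk => ?_
  rw [mem_range] at hi hj hk
  rw [det3_pidx V hi hj hk, abs_mul]
  congr 1
  rcases pidx_sq i hi j hj k hk with h | h | h <;> simp [h]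

theorem T2_eq (V : ℕ → Fin 3 → ℝ) : T2 V = 6 * ∑ n ∈ range 35, minors V n ^ 2 := by
  rw [← sum6]
  refine Finset.sum_congr rfl fun i hi => Finset.sum_congr rfl fun j hj =>
    Finset.sum_congr rfl fun k hk => ?_
  rw [mem_range] at hi hj hk
  rw [det3_pidx V hi hj hk, mul_pow]

theorem TA_eq (V : ℕ → Fin 3 → ℝ) {i : ℕ} (hi : i ∈ range 7) :
    TA V i = 2 * ∑ n ∈ range 35, if memTri i n then minors V n ^ 2 else 0 := by
  rw [← sum2 (fun n => minors V n ^ 2) hi]
  refine Finset.sum_congr rfl fun j hj => Finset.sum_congr rfl fun k hk => ?_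
  rw [mem_range] at hi hj hk
  rw [det3_pidx V hi hj hk, mul_pow]

/-! ### The bound on each class -/

theorem qf_diag (L : ℤ) (mu : List ℤ) (P : ℕ → ℝ) :
    qf (diagForm L mu tri) P 0 = L * (∑ n ∈ range 35, P n ^ 2) +
      ∑ i ∈ range 7, (mu.getD i 0 : ℝ) * ∑ n ∈ range 35, if memTri i n then P n ^ 2 else 0 := by
  simp only [diagForm, tri, qf, dot, Finset.sum_range_succ, Finset.sum_range_zero, memTri,
    List.getD_cons_zero, List.getD_cons_succ]
  simp only [Nat.beq_eq, Bool.or_eq_true]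
  norm_num
  ring

def certs : List Cert :=
  [cert0, cert1, cert2, cert3, cert4, cert5, cert6, cert7, cert8, cert9, cert10]

def sgI (b : Bool) : ℤ := if b then -1 else 1

theorem sgI_sq (b : Bool) : (sgI b : ℝ) ^ 2 = 1 := by cases b <;> simp [sgI]

theorem cert_eps : ∀ c < 11, (certs.getD c cert0).eps = (epsB.getD c []).map sgI := by
  decide +kernel

theorem epsB_length : ∀ c < 11, (epsB.getD c []).length = 35 := by
  decide +kernel

theorem cert_nums : ∀ c < 11, 0 < (certs.getD c cert0).S ∧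
    (certs.getD c cert0).L * 1000 = 31395 * (certs.getD c cert0).S ∧
    (∑ i ∈ range 7, (certs.getD c cert0).mu.getD i 0) = 0 ∧
    ∀ i < 7, -(certs.getD c cert0).S ≤ (certs.getD c cert0).mu.getD i 0 ∧
      (certs.getD c cert0).mu.getD i 0 ≤ (certs.getD c cert0).S := by
  decide +kernel

theorem cert_ok : ∀ c < 11, (certs.getD c cert0).check = true := by
  intro c hc
  interval_cases c
  · exact cert0_check
  · exact cert1_check
  · exact cert2_check
  · exact cert3_check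
  · exact cert4_check
  · exact cert5_check
  · exact cert6_check
  · exact cert7_check
  · exact cert8_check
  · exact cert9_check
  · exact cert10_check

theorem dot_sign (g : ℝ) (hg : g ^ 2 = 1) (e : List Bool) (P : ℕ → ℝ) (s : ℕ)
    (h : ∀ t < e.length, 0 ≤ g * sgI (e.getD t false) * P (s + t)) :
    dot (e.map sgI) P s = g * ∑ t ∈ range e.length, |P (s + t)| := by
  induction e generalizing s with
  | nil => simp [dot]
  | cons b e ih =>
    have h0 := h 0 (by simp)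
    simp only [List.getD_cons_zero, add_zero] at h0
    have h1 := ih (s + 1) (by
      intro t ht
      have := h (t + 1) (by simpa using ht)
      rwa [List.getD_cons_succ, show s + (t + 1) = s + 1 + t by ring] at this)
    simp only [List.map_cons, dot, List.length_cons]
    rw [h1, Finset.sum_range_succ']
    simp only [add_zero]
    have h2 : (sgI b : ℝ) * P s = g * |P s| := by
      have h3 : |g * sgI b * P s| = |P s| := by
        have h4 : |g * (sgI b : ℝ)| = 1 := by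
          have : (g * (sgI b : ℝ)) ^ 2 = 1 := by rw [mul_pow, hg, sgI_sq, one_mul]
          exact (sq_eq_sq₀ (abs_nonneg _) zero_le_one).1 (by rw [sq_abs, this]; norm_num)
        rw [abs_mul, h4, one_mul]
      rw [← h3, abs_of_nonneg h0]
      linear_combination (-(sgI b : ℝ) * P s) * hg
    rw [h2]
    have h5 : ∀ t, s + 1 + t = s + (t + 1) := fun t => by ring
    simp only [h5]
    ring

/-- The inequality `MI` for matrices whose sign vector is (up to a global sign) that of the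
class `c`. -/
theorem class_bound {c : ℕ} (hc : c < 11) (V : ℕ → Fin 3 → ℝ) (g : ℝ) (hg : g ^ 2 = 1)
    (h : ∀ t < 35, 0 ≤ g * sgI ((epsB.getD c []).getD t false) * minors V t) : MI V := by
  have h1 := Cert.sound _ (cert_ok c hc) V
  obtain ⟨hS, hL, hmu0, hmu⟩ := cert_nums c hc
  rw [cert_eps c hc, dot_sign g hg _ _ _ (by
    intro t ht
    rw [epsB_length c hc] at ht
    simpa using h t ht), epsB_length c hc, qf_diag] at h1
  set C := certs.getD c cert0 with hC
  simp only [zero_add] at h1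
  unfold MI
  rw [T1_eq, T2_eq]
  set N := ∑ n ∈ range 35, minors V n ^ 2 with hN
  set A := ∑ n ∈ range 35, |minors V n| with hA
  have hS' : (0 : ℝ) < C.S := by exact_mod_cast hS
  have hL' : (C.L : ℝ) = 31395 / 1000 * C.S := by
    have : (C.L : ℝ) * 1000 = 31395 * C.S := by exact_mod_cast hL
    linarith
  have hmu0' : ∑ i ∈ range 7, (C.mu.getD i 0 : ℝ) = 0 := by exact_mod_cast hmu0
  have h2 : ∑ i ∈ range 7, (C.mu.getD i 0 : ℝ) *
      (∑ n ∈ range 35, if memTri i n then minors V n ^ 2 else 0) ≤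
      C.S * ∑ i ∈ range 7, |TA V i / 2 - 3 / 7 * (6 * N / 6)| := by
    have h3 : ∑ i ∈ range 7, (C.mu.getD i 0 : ℝ) *
      (∑ n ∈ range 35, if memTri i n then minors V n ^ 2 else 0) =
      ∑ i ∈ range 7, (C.mu.getD i 0 : ℝ) * (TA V i / 2 - 3 / 7 * (6 * N / 6)) := by
      have h4 : ∑ i ∈ range 7, (C.mu.getD i 0 : ℝ) * (TA V i / 2 - 3 / 7 * (6 * N / 6)) =
        ∑ i ∈ range 7, (C.mu.getD i 0 : ℝ) * (TA V i / 2) -
          (∑ i ∈ range 7, (C.mu.getD i 0 : ℝ)) * (3 / 7 * (6 * N / 6)) := by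
        rw [Finset.sum_mul, ← Finset.sum_sub_distrib]
        exact Finset.sum_congr rfl fun i _ => by ring
      rw [h4, hmu0', zero_mul, sub_zero]
      refine Finset.sum_congr rfl fun i hi => ?_
      rw [TA_eq V hi]; ring
    clear_value N A
    rw [h3, Finset.mul_sum]
    apply Finset.sum_le_sum
    intro i hi
    have h5 := hmu i (mem_range.1 hi)
    have h6 : |((C.mu.getD i 0 : ℤ) : ℝ)| ≤ (C.S : ℝ) :=
      abs_le.2 ⟨by exact_mod_cast h5.1, by exact_mod_cast h5.2⟩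
    calc (C.mu.getD i 0 : ℝ) * (TA V i / 2 - 3 / 7 * (6 * N / 6))
        ≤ |(C.mu.getD i 0 : ℝ) * (TA V i / 2 - 3 / 7 * (6 * N / 6))| := le_abs_self _
      _ = |(C.mu.getD i 0 : ℝ)| * |TA V i / 2 - 3 / 7 * (6 * N / 6)| := abs_mul _ _
      _ ≤ C.S * |TA V i / 2 - 3 / 7 * (6 * N / 6)| :=
        mul_le_mul_of_nonneg_right h6 (abs_nonneg _)
  have h7 : (C.S : ℝ) * (6 * A / 6) ^ 2 ≤ C.S * (31395 / 1000 * (6 * N / 6) +
      ∑ i ∈ range 7, |TA V i / 2 - 3 / 7 * (6 * N / 6)|) := by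
    have h8 : (C.S : ℝ) * (g * A) ^ 2 = C.S * (6 * A / 6) ^ 2 := by
      rw [mul_pow, hg]; ring
    rw [← h8]
    rw [hL'] at h1
    linarith
  exact le_of_mul_le_mul_left h7 hS'

end Pool.Agent.Work.MP_416390_gt
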