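import Pool.Agent.Work.MP_416390_gt.Checker

set_option autoImplicit false

namespace Pool.Agent.Work.MP_416390_gt

/-- Decode `k` integers in base `base` with offset `off`. -/
def dec (base off : ℕ) : ℕ → ℕ → List ℤ
  | 0, _ => []
  | k + 1, n => (((n % base : ℕ) : ℤ) - (off : ℤ)) :: dec base off k (n / base)

def rowsOf : ℕ → List ℤ → List (List ℤ)
  | 0, _ => []
  | k + 1, l => l.take (k + 1) :: rowsOf k (l.drop (k + 1))

end Pool.Agent.Work.MP_416390_gt
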