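import Mathlib

set_option autoImplicit false

open MeasureTheory Set Filter Topology

namespace Pool.Agent.Work.MP_416390_gt

/-! ### The volume of a zonotope -/

/-- The zonotope generated by a list of vectors. -/
def zono {k : ℕ} : List (Fin k → ℝ) → Set (Fin k → ℝ)
  | [] => {0}
  | v :: l => (fun p : (Fin k → ℝ) × ℝ => p.1 + p.2 • v) '' (zono l ×ˢ Icc (0 : ℝ) 1)

theorem isCompact_zono {k : ℕ} (l : List (Fin k → ℝ)) : IsCompact (zono l) := by
  induction l with
  | nil => exact isCompact_singleton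
  | cons v l ih => exact (ih.prod isCompact_Icc).image (by fun_prop)

theorem convex_zono {k : ℕ} (l : List (Fin k → ℝ)) : Convex ℝ (zono l) := by
  induction l with
  | nil => exact convex_singleton _
  | cons v l ih =>
    have h : (fun p : (Fin k → ℝ) × ℝ => p.1 + p.2 • v) =
        ((LinearMap.fst ℝ (Fin k → ℝ) ℝ) + (LinearMap.snd ℝ (Fin k → ℝ) ℝ).smulRight v) := by
      ext p; simp
    unfold zono
    rw [h]
    exact Convex.linear_image (ih.prod (convex_Icc (0 : ℝ) 1))
      ((LinearMap.fst ℝ (Fin k → ℝ) ℝ) + (LinearMap.snd ℝ (Fin k → ℝ) ℝ).smulRight v)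

theorem zono_nonempty {k : ℕ} (l : List (Fin k → ℝ)) : (zono l).Nonempty := by
  induction l with
  | nil => exact singleton_nonempty _
  | cons v l ih => exact (ih.prod ⟨0, by simp⟩).image _

theorem image_zono {k m : ℕ} (A : (Fin k → ℝ) →ₗ[ℝ] (Fin m → ℝ)) (l : List (Fin k → ℝ)) :
    A '' zono l = zono (l.map A) := by
  induction l with
  | nil => simp [zono]
  | cons v l ih =>
    ext x
    simp only [zono, List.map_cons, ← ih, mem_image, mem_prod, Prod.exists]
    constructor
    · rintro ⟨_, ⟨y, t, ⟨hy, ht⟩, rfl⟩, rfl⟩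
      exact ⟨A y, t, ⟨⟨y, hy, rfl⟩, ht⟩, by simp⟩
    · rintro ⟨_, t, ⟨⟨y, hy, rfl⟩, ht⟩, rfl⟩
      exact ⟨y + t • v, ⟨y, t, ⟨hy, ht⟩, rfl⟩, by simp⟩

theorem zono_zero_cons {k : ℕ} (l : List (Fin k → ℝ)) : zono (0 :: l) = zono l := by
  ext x
  simp only [zono, mem_image, mem_prod, Prod.exists, smul_zero, add_zero]
  constructor
  · rintro ⟨y, t, ⟨hy, -⟩, rfl⟩; exact hy
  · intro hx; exact ⟨x, 0, ⟨hx, by simp⟩, rfl⟩

/-- Slicing lemma in a product. -/
theorem volume_add_segment_prod {E : Type*} [TopologicalSpace E] [AddCommGroup E] [Module ℝ E]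
    [MeasurableSpace E] [OpensMeasurableSpace E] [SecondCountableTopology E] [T2Space E]
    [ContinuousAdd E] [ContinuousSMul ℝ E] [BorelSpace E]
    (μ : Measure E) [SFinite μ] (K : Set (ℝ × E)) (hK : IsCompact K) (hc : Convex ℝ K) :
    ((volume : Measure ℝ).prod μ) ((fun p : (ℝ × E) × ℝ => p.1 + p.2 • ((1 : ℝ), (0 : E))) ''
      (K ×ˢ Icc (0 : ℝ) 1)) = ((volume : Measure ℝ).prod μ) K + μ (Prod.snd '' K) := by
  have hK' : IsCompact ((fun p : (ℝ × E) × ℝ => p.1 + p.2 • ((1 : ℝ), (0 : E))) ''
      (K ×ˢ Icc (0 : ℝ) 1)) := (hK.prod isCompact_Icc).image (by fun_prop)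
  have hS : IsCompact (Prod.snd '' K) := hK.image continuous_snd
  rw [Measure.prod_apply_symm hK'.measurableSet, Measure.prod_apply_symm hK.measurableSet,
    ← lintegral_indicator_one hS.measurableSet, ← lintegral_add_right _
      (measurable_one.indicator hS.measurableSet)]
  congr 1
  ext x
  have hfib : (fun t => (t, x)) ⁻¹' ((fun p : (ℝ × E) × ℝ => p.1 + p.2 • ((1 : ℝ), (0 : E))) ''
      (K ×ˢ Icc (0 : ℝ) 1)) = {t | ∃ s ∈ (fun t => (t, x)) ⁻¹' K, ∃ r ∈ Icc (0 : ℝ) 1, t = s + r} := by
    ext t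
    simp only [mem_preimage, mem_image, mem_prod, Prod.exists, mem_ofPred_eq]
    constructor
    · rintro ⟨s, y, r, ⟨hs, hr⟩, h⟩
      simp only [Prod.smul_mk, smul_eq_mul, mul_one, smul_zero, Prod.mk_add_mk, add_zero,
        Prod.mk.injEq] at h
      obtain ⟨h1, h2⟩ := h
      subst h2
      exact ⟨s, hs, r, hr, h1.symm⟩
    · rintro ⟨s, hs, r, hr, h⟩
      exact ⟨s, x, r, ⟨hs, hr⟩, by simp [h]⟩
  rw [hfib]
  by_cases hx : x ∈ Prod.snd '' K
  · have hcpt : IsCompact ((fun t : ℝ => (t, x)) ⁻¹' K) := by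
      have h1 : (fun t : ℝ => (t, x)) ⁻¹' K = Prod.fst '' (K ∩ Prod.snd ⁻¹' {x}) := by
        ext t
        simp only [mem_preimage, mem_image, mem_inter_iff, mem_singleton_iff, Prod.exists]
        constructor
        · intro h; exact ⟨t, x, ⟨h, rfl⟩, rfl⟩
        · rintro ⟨s, y, ⟨h, rfl⟩, rfl⟩; exact h
      rw [h1]
      exact (hK.inter_right (isClosed_singleton.preimage continuous_snd)).image continuous_fst
    have hne : ((fun t : ℝ => (t, x)) ⁻¹' K).Nonempty := by
      obtain ⟨⟨t, y⟩, h, rfl⟩ := hx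
      exact ⟨t, h⟩
    have hconv : Convex ℝ ((fun t : ℝ => (t, x)) ⁻¹' K) := by
      intro s hs t ht a b ha hb hab
      have := hc hs ht ha hb hab
      simp only [mem_preimage]
      convert this using 1
      ext
      · simp
      · simp [← add_smul, hab]
    have hIcc := eq_Icc_of_connected_compact ⟨hne, hconv.isPreconnected⟩ hcpt
    set a := sInf ((fun t : ℝ => (t, x)) ⁻¹' K)
    set b := sSup ((fun t : ℝ => (t, x)) ⁻¹' K)
    have hab : a ≤ b := by
      rw [hIcc] at hne
      exact nonempty_Icc.1 hne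
    rw [hIcc]
    have h2 : {t | ∃ s ∈ Icc a b, ∃ r ∈ Icc (0 : ℝ) 1, t = s + r} = Icc a (b + 1) := by
      ext t
      simp only [mem_ofPred_eq, mem_Icc]
      constructor
      · rintro ⟨s, hs, r, hr, rfl⟩
        exact ⟨by linarith [hs.1, hr.1], by linarith [hs.2, hr.2]⟩
      · rintro ⟨h1, h2⟩
        by_cases htb : t ≤ b
        · exact ⟨t, ⟨h1, htb⟩, 0, by norm_num, by ring⟩
        · exact ⟨b, ⟨hab, le_rfl⟩, t - b, ⟨by linarith [not_le.1 htb], by linarith⟩, by ring⟩
    rw [h2, Real.volume_Icc, Real.volume_Icc, indicator_of_mem hx, Pi.one_apply,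
      show b + 1 - a = (b - a) + 1 by ring,
      ENNReal.ofReal_add (by linarith) zero_le_one, ENNReal.ofReal_one]
  · have h1 : (fun t : ℝ => (t, x)) ⁻¹' K = ∅ := by
      rw [eq_empty_iff_forall_notMem]
      intro t ht
      exact hx ⟨(t, x), ht, rfl⟩
    rw [h1, indicator_of_notMem hx]
    simp

/-- Drop the first coordinate. -/
def tailL (k : ℕ) : (Fin (k + 1) → ℝ) →ₗ[ℝ] (Fin k → ℝ) :=
  LinearMap.funLeft ℝ ℝ Fin.succ

theorem tailL_apply {k : ℕ} (x : Fin (k + 1) → ℝ) : tailL k x = fun i => x i.succ := rfl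

theorem volume_add_segment_single {k : ℕ} (K : Set (Fin (k + 1) → ℝ)) (hK : IsCompact K)
    (hc : Convex ℝ K) :
    volume ((fun p : (Fin (k + 1) → ℝ) × ℝ => p.1 + p.2 • (Pi.single 0 1 : Fin (k + 1) → ℝ)) ''
      (K ×ˢ Icc (0 : ℝ) 1)) = volume K + volume (tailL k '' K) := by
  let e := MeasurableEquiv.piFinSuccAbove (fun _ : Fin (k + 1) => ℝ) 0
  have he : MeasurePreserving e volume volume := volume_preserving_piFinSuccAbove (fun _ => ℝ) 0
  have happ : ∀ x, e x = (x 0, fun i => x i.succ) := by
    intro x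
    simp [e, MeasurableEquiv.piFinSuccAbove, Fin.insertNthEquiv]
    rfl
  have hcont : Continuous (fun x : Fin (k + 1) → ℝ => (x 0, fun i : Fin k => x i.succ)) := by
    fun_prop
  have hvol : ∀ s : Set (Fin (k + 1) → ℝ), volume s = volume (e '' s) := by
    intro s
    rw [← he.measure_preimage_equiv]
    rw [e.injective.preimage_image]
  have hfun : (e : (Fin (k + 1) → ℝ) → ℝ × (Fin k → ℝ)) =
      fun x => (x 0, fun i : Fin k => x i.succ) := funext happ
  have hKe : IsCompact (e '' K) := by
    rw [hfun]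
    exact hK.image hcont
  have hce : Convex ℝ (e '' K) := by
    rw [hfun]
    have : (fun x : Fin (k + 1) → ℝ => (x 0, fun i : Fin k => x i.succ)) =
        ((LinearMap.proj 0 : (Fin (k + 1) → ℝ) →ₗ[ℝ] ℝ).prod (tailL k)) := by
      ext x <;> simp [tailL_apply]
    rw [this]
    exact hc.linear_image _
  have key := volume_add_segment_prod (volume : Measure (Fin k → ℝ)) (e '' K) hKe hce
  rw [hvol, hvol K]
  have h1 : e '' ((fun p : (Fin (k + 1) → ℝ) × ℝ => p.1 + p.2 • (Pi.single 0 1 : Fin (k + 1) → ℝ)) ''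
      (K ×ˢ Icc (0 : ℝ) 1)) = (fun p : (ℝ × (Fin k → ℝ)) × ℝ =>
        p.1 + p.2 • ((1 : ℝ), (0 : Fin k → ℝ))) '' ((e '' K) ×ˢ Icc (0 : ℝ) 1) := by
    ext y
    simp only [mem_image, mem_prod, Prod.exists]
    constructor
    · rintro ⟨_, ⟨x, t, ⟨hx, ht⟩, rfl⟩, rfl⟩
      refine ⟨(e x).1, (e x).2, t, ⟨⟨x, hx, rfl⟩, ht⟩, ?_⟩
      rw [happ, happ]
      ext
      · simp
      · simp
    · rintro ⟨a, b, t, ⟨⟨x, hx, hxe⟩, ht⟩, rfl⟩
      refine ⟨x + t • (Pi.single 0 1 : Fin (k + 1) → ℝ), ⟨x, t, ⟨hx, ht⟩, rfl⟩, ?_⟩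
      rw [← hxe, happ, happ]
      ext
      · simp
      · simp
  have h2 : Prod.snd '' (e '' K) = tailL k '' K := by
    rw [hfun, image_image]
    rfl
  rw [h1]
  change ((volume : Measure ℝ).prod (volume : Measure (Fin k → ℝ))) _ =
    ((volume : Measure ℝ).prod (volume : Measure (Fin k → ℝ))) _ + _
  rw [key, h2]

/-- The determinant of the first `k` vectors of a list. -/
noncomputable def detL (k : ℕ) (s : List (Fin k → ℝ)) : ℝ :=
  Matrix.det (Matrix.of fun i : Fin k => s.getD i 0)

/-- The sum of the absolute values of all `k × k` minors. -/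
noncomputable def sumMinors (k : ℕ) (l : List (Fin k → ℝ)) : ℝ :=
  ((l.sublistsLen k).map fun s => |detL k s|).sum

theorem sublistsLen_map' {α β : Type*} (f : α → β) (n : ℕ) (l : List α) :
    List.sublistsLen n (l.map f) = (List.sublistsLen n l).map (List.map f) := by
  induction l generalizing n with
  | nil => cases n <;> simp
  | cons a l ih =>
    cases n with
    | zero => simp
    | succ n => simp [List.sublistsLen_succ_cons, ih, Function.comp_def]

theorem sumMinors_nonneg (k : ℕ) (l : List (Fin k → ℝ)) : 0 ≤ sumMinors k l := by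
  apply List.sum_nonneg
  intro x hx
  rw [List.mem_map] at hx
  obtain ⟨s, -, rfl⟩ := hx
  exact abs_nonneg _

theorem detL_cons {k : ℕ} (A : (Fin (k + 1) → ℝ) →ₗ[ℝ] (Fin (k + 1) → ℝ))
    (v : Fin (k + 1) → ℝ) (hA : A v = Pi.single 0 1) (s : List (Fin (k + 1) → ℝ)) :
    LinearMap.det A * detL (k + 1) (v :: s) = detL k (s.map fun x => tailL k (A x)) := by
  have h1 : LinearMap.det A * detL (k + 1) (v :: s) =
      Matrix.det (Matrix.of fun i : Fin (k + 1) => A ((v :: s).getD i 0)) := by
    have h2 : (Matrix.of fun i : Fin (k + 1) => A ((v :: s).getD i 0)) =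
        (Matrix.of fun i : Fin (k + 1) => (v :: s).getD i 0) * (LinearMap.toMatrix' A).transpose := by
      ext i j
      rw [Matrix.mul_apply]
      simp only [Matrix.of_apply, Matrix.transpose_apply]
      have h3 : A ((v :: s).getD (i : ℕ) 0) = (LinearMap.toMatrix' A).mulVec ((v :: s).getD (i : ℕ) 0) := by
        rw [← Matrix.toLin'_apply, Matrix.toLin'_toMatrix']
      rw [h3, Matrix.mulVec, dotProduct]
      exact Finset.sum_congr rfl fun l _ => mul_comm _ _
    rw [h2, Matrix.det_mul, Matrix.det_transpose, LinearMap.det_toMatrix', mul_comm]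
    rfl
  rw [h1, Matrix.det_succ_row_zero]
  rw [Finset.sum_eq_single 0]
  · simp only [Matrix.of_apply, Fin.val_zero, List.getD_cons_zero, hA, Pi.single_eq_same, pow_zero,
      one_mul]
    unfold detL
    congr 1
    ext i j
    simp only [Matrix.submatrix_apply, Matrix.of_apply, Fin.val_succ, List.getD_cons_succ,
      Fin.succAbove_zero]
    by_cases hi : (i : ℕ) < s.length
    · simp [List.getD, hi, tailL_apply]
    · simp [List.getD, hi, tailL_apply]
  · intro j _ hj
    simp [hA, hj]
  · intro h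
    exact absurd (Finset.mem_univ _) h

theorem detL_zero_cons {k : ℕ} (s : List (Fin (k + 1) → ℝ)) : detL (k + 1) (0 :: s) = 0 := by
  apply Matrix.det_eq_zero_of_row_eq_zero 0
  intro j
  simp

theorem volume_zono : ∀ (k : ℕ) (l : List (Fin k → ℝ)),
    volume (zono l) = ENNReal.ofReal (sumMinors k l) := by
  intro k
  induction k with
  | zero =>
    intro l
    have h1 : zono l = univ := by
      ext x
      simp only [mem_univ, iff_true]
      obtain ⟨y, hy⟩ := zono_nonempty l
      rwa [Subsingleton.elim x y]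
    rw [h1, sumMinors, volume_pi, Measure.pi_univ]
    simp [List.sublistsLen_zero, detL]
  | succ k ihk =>
    intro l
    induction l with
    | nil =>
      simp [zono, sumMinors]
    | cons v l ihl =>
      have hS : sumMinors (k + 1) (v :: l) = sumMinors (k + 1) l +
          ((l.sublistsLen k).map fun s => |detL (k + 1) (v :: s)|).sum := by
        simp [sumMinors, List.sublistsLen_succ_cons, Function.comp_def]
      by_cases hv : v = 0
      · subst hv
        rw [zono_zero_cons, ihl, hS]
        simp [detL_zero_cons]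
      · obtain ⟨A, hA⟩ : ∃ A : (Fin (k + 1) → ℝ) ≃L[ℝ] (Fin (k + 1) → ℝ), A v = Pi.single 0 1 :=
          SeparatingDual.exists_continuousLinearEquiv_apply_eq hv (by
            intro h
            have := congrFun h 0
            simp at this)
        set A' : (Fin (k + 1) → ℝ) →ₗ[ℝ] (Fin (k + 1) → ℝ) := A.toLinearEquiv.toLinearMap with hA'
        have hA'v : A' v = Pi.single 0 1 := hA
        have hdet : LinearMap.det A' ≠ 0 := by
          rw [← LinearEquiv.coe_det]
          exact Units.ne_zero _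
        have hd : 0 < |LinearMap.det A'| := abs_pos.2 hdet
        have h1 := Measure.addHaar_image_linearMap (volume : Measure (Fin (k + 1) → ℝ)) A'
          (zono (v :: l))
        have h2 := Measure.addHaar_image_linearMap (volume : Measure (Fin (k + 1) → ℝ)) A'
          (zono l)
        have h3 : A' '' zono (v :: l) = (fun p : (Fin (k + 1) → ℝ) × ℝ =>
            p.1 + p.2 • (Pi.single 0 1 : Fin (k + 1) → ℝ)) '' ((A' '' zono l) ×ˢ Icc (0 : ℝ) 1) := by
          rw [image_zono, List.map_cons, hA'v, image_zono]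
          rfl
        have h4 := volume_add_segment_single (A' '' zono l)
          ((isCompact_zono l).image A.continuous) ((convex_zono l).linear_image A')
        rw [h3, h4, h2, image_image] at h1
        have h5 : (fun x => tailL k (A' x)) '' zono l = zono (l.map (tailL k ∘ₗ A')) := by
          rw [← image_zono]; rfl
        rw [h5, ihk, ihl] at h1
        have h6 : sumMinors k (l.map (tailL k ∘ₗ A')) = |LinearMap.det A'| *
            ((l.sublistsLen k).map fun s => |detL (k + 1) (v :: s)|).sum := by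
          rw [sumMinors, sublistsLen_map', List.map_map, ← List.sum_map_mul_left]
          congr 1
          apply List.map_congr_left
          intro s _
          simp only [Function.comp]
          rw [← abs_mul, detL_cons A' v hA'v s]
          rfl
        rw [h6] at h1
        have hT : 0 ≤ ((l.sublistsLen k).map fun s => |detL (k + 1) (v :: s)|).sum := by
          apply List.sum_nonneg
          intro x hx
          rw [List.mem_map] at hx
          obtain ⟨s, -, rfl⟩ := hx
          exact abs_nonneg _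
        rw [hS, ENNReal.ofReal_add (sumMinors_nonneg _ _) hT]
        rw [ENNReal.ofReal_mul hd.le, ← mul_add] at h1
        have h7 : ENNReal.ofReal |LinearMap.det A'| ≠ 0 := by
          simpa using hdet
        exact ((ENNReal.mul_right_inj h7 ENNReal.ofReal_ne_top).1 h1).symm

end Pool.Agent.Work.MP_416390_gt
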