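import Pool.Agent.Work.MP_416390_gt.Ineq2
import Pool.Agent.Work.MP_416390_gt.Zono

set_option autoImplicit false

open Finset MeasureTheory

namespace Pool.Agent.Work.MP_416390_gt

/-! ### Measure in coordinates -/

theorem vol_coords {F ι : Type*} [NormedAddCommGroup F] [InnerProductSpace ℝ F]
    [FiniteDimensional ℝ F] [MeasurableSpace F] [BorelSpace F] [Fintype ι]
    (b : OrthonormalBasis ι ℝ F) (s : Set F) :
    (stdOrthonormalBasis ℝ F).toBasis.addHaar s =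
      volume ((fun (x : F) (i : ι) => b.repr x i) '' s) := by
  rw [OrthonormalBasis.addHaar_eq_volume]
  let e : F ≃ᵐ (ι → ℝ) := b.measurableEquiv.trans (MeasurableEquiv.toLp 2 (ι → ℝ)).symm
  have he : MeasurePreserving e volume volume :=
    (EuclideanSpace.volume_preserving_symm_measurableEquiv_toLp ι).comp
      b.measurePreserving_measurableEquiv
  have h1 : (fun (x : F) (i : ι) => b.repr x i) = e := rfl
  rw [h1, ← he.measure_preimage_equiv, e.injective.preimage_image]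

theorem zono_ofFn {k n : ℕ} (c : Fin n → (Fin k → ℝ)) :
    zono (List.ofFn c) = (fun x : Fin n → ℝ => ∑ i, x i • c i) '' {x | ∀ i, x i ∈ Set.Icc (0:ℝ) 1} := by
  induction n with
  | zero =>
    ext y
    simp [zono]
  | succ n ih =>
    rw [List.ofFn_succ]
    ext y
    simp only [zono, ih, Set.mem_image, Set.mem_prod, Prod.exists]
    constructor
    · rintro ⟨_, t, ⟨⟨x, hx, rfl⟩, ht⟩, rfl⟩
      refine ⟨Fin.cons t x, ?_, ?_⟩
      · intro i
        refine Fin.cases ?_ (fun j => ?_) i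
        · simpa using ht
        · simpa using hx j
      · rw [Fin.sum_univ_succ]
        simp [add_comm]
    · rintro ⟨x, hx, rfl⟩
      refine ⟨∑ i : Fin n, x i.succ • c i.succ, x 0, ⟨⟨fun i => x i.succ, fun i => hx i.succ, rfl⟩,
        hx 0⟩, ?_⟩
      rw [Fin.sum_univ_succ]
      simp [add_comm]

/-- Extension of a family indexed by `Fin 7` to `ℕ`. -/
def ext7 (c : Fin 7 → (Fin 3 → ℝ)) : ℕ → Fin 3 → ℝ := fun n => c (Fin.ofNat 7 n)

theorem detL_three (a b c : Fin 3 → ℝ) : detL 3 [a, b, c] = det3 a b c := by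
  simp [detL, Matrix.det_fin_three, det3]
  ring

theorem sumMinors_three (c : Fin 7 → (Fin 3 → ℝ)) :
    sumMinors 3 (List.ofFn c) = ∑ n ∈ range 35, |minors (ext7 c) n| := by
  have h : List.ofFn c = [c 0, c 1, c 2, c 3, c 4, c 5, c 6] := by
    simp [List.ofFn_succ]
  rw [h]
  simp only [sumMinors, List.sublistsLen_succ_cons, List.sublistsLen_zero,
    List.sublistsLen_succ_nil, List.map_cons, List.map_nil, List.nil_append,
    List.sum_cons, List.sum_nil, List.cons_append, List.append_nil, detL_three]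
  simp only [Finset.sum_range_succ, Finset.sum_range_zero, minors, tri, List.getD_cons_zero,
    List.getD_cons_succ, ext7]
  simp only [show Fin.ofNat 7 0 = 0 from rfl, show Fin.ofNat 7 1 = 1 from rfl,
    show Fin.ofNat 7 2 = 2 from rfl, show Fin.ofNat 7 3 = 3 from rfl,
    show Fin.ofNat 7 4 = 4 from rfl, show Fin.ofNat 7 5 = 5 from rfl,
    show Fin.ofNat 7 6 = 6 from rfl]
  ring

/-! ### Orthonormal frames -/

/-- The `i`-th column of the matrix with rows `b r`. -/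
noncomputable def col (H : Submodule ℝ (EuclideanSpace ℝ (Fin 7))) (b : OrthonormalBasis (Fin 3) ℝ H)
    (i : Fin 7) : Fin 3 → ℝ := fun r => ((b r : EuclideanSpace ℝ (Fin 7)) i)

theorem image_cube (H : Submodule ℝ (EuclideanSpace ℝ (Fin 7)))
    (b : OrthonormalBasis (Fin 3) ℝ H) :
    (fun (x : H) (r : Fin 3) => b.repr x r) ''
      (H.orthogonalProjectionOnto '' {x | ∀ i, x i ∈ Set.Icc (0:ℝ) 1}) =
      zono (List.ofFn (col H b)) := by
  have h1 : ∀ x : EuclideanSpace ℝ (Fin 7), (fun r : Fin 3 => b.repr (H.orthogonalProjectionOnto x) r) =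
      ∑ i, x i • col H b i := by
    intro x
    ext r
    rw [OrthonormalBasis.repr_apply_apply, Submodule.inner_orthogonalProjectionOnto_eq_of_mem_left]
    simp [PiLp.inner_apply, col]
  rw [zono_ofFn, Set.image_image]
  ext y
  simp only [Set.mem_image]
  constructor
  · rintro ⟨x, hx, rfl⟩
    exact ⟨x.ofLp, hx, (h1 x).symm⟩
  · rintro ⟨x, hx, rfl⟩
    exact ⟨WithLp.toLp 2 x, hx, h1 _⟩

theorem vol_proj (H : Submodule ℝ (EuclideanSpace ℝ (Fin 7)))
    (b : OrthonormalBasis (Fin 3) ℝ H) :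
    (stdOrthonormalBasis ℝ H).toBasis.addHaar
      (H.orthogonalProjectionOnto '' {x | ∀ i, x i ∈ Set.Icc (0:ℝ) 1}) =
      ENNReal.ofReal (T1 (ext7 (col H b)) / 6) := by
  rw [vol_coords b, image_cube, volume_zono, sumMinors_three, T1_eq]
  congr 1
  ring

theorem ext7_val (c : Fin 7 → (Fin 3 → ℝ)) (i : Fin 7) : ext7 c (i : ℕ) = c i := by
  unfold ext7
  congr 1
  exact Fin.ofNat_val_eq_self i

theorem col_orth (H : Submodule ℝ (EuclideanSpace ℝ (Fin 7)))
    (b : OrthonormalBasis (Fin 3) ℝ H) (r s : Fin 3) :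
    ∑ i ∈ range 7, ext7 (col H b) i r * ext7 (col H b) i s = if r = s then 1 else 0 := by
  rw [Finset.sum_range]
  simp only [ext7_val]
  have h := orthonormal_iff_ite.1 b.orthonormal r s
  rw [Submodule.coe_inner, PiLp.inner_apply] at h
  rw [← h]
  refine Finset.sum_congr rfl fun i _ => ?_
  simp [col, mul_comm]

theorem norm_proj (H : Submodule ℝ (EuclideanSpace ℝ (Fin 7)))
    (b : OrthonormalBasis (Fin 3) ℝ H) (i : Fin 7) :
    ‖H.orthogonalProjectionOnto (EuclideanSpace.single i (1 : ℝ))‖ ^ 2 =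
      col H b i 0 ^ 2 + col H b i 1 ^ 2 + col H b i 2 ^ 2 := by
  rw [← b.repr.norm_map, EuclideanSpace.real_norm_sq_eq, Fin.sum_univ_three]
  simp only [OrthonormalBasis.repr_apply_apply,
    Submodule.inner_orthogonalProjectionOnto_eq_of_mem_left, EuclideanSpace.inner_single_right]
  simp [col]

/-- Orthonormal rows. -/
def OrthRows (W : ℕ → Fin 3 → ℝ) : Prop :=
  ∀ r s : Fin 3, ∑ i ∈ range 7, W i r * W i s = if r = s then 1 else 0

theorem OrthRows.quad {W : ℕ → Fin 3 → ℝ} (hW : OrthRows W) (q00 q11 q22 q01 q02 q12 : ℝ) :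
    ∑ i ∈ range 7, (q00 * (W i 0 * W i 0) + q11 * (W i 1 * W i 1) + q22 * (W i 2 * W i 2) +
      q01 * (W i 0 * W i 1) + q02 * (W i 0 * W i 2) + q12 * (W i 1 * W i 2)) =
      q00 + q11 + q22 := by
  simp only [Finset.sum_add_distrib, ← Finset.mul_sum]
  rw [hW 0 0, hW 1 1, hW 2 2, hW 0 1, hW 0 2, hW 1 2]
  simp

theorem OrthRows.TA_eq {W : ℕ → Fin 3 → ℝ} (hW : OrthRows W) (i : ℕ) :
    TA W i = 2 * (W i 0 ^ 2 + W i 1 ^ 2 + W i 2 ^ 2) := by
  unfold TA
  have h1 : ∀ j, ∑ k ∈ range 7, det3 (W i) (W j) (W k) ^ 2 =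
      (W i 1 * W j 2 - W i 2 * W j 1) ^ 2 + (W i 2 * W j 0 - W i 0 * W j 2) ^ 2 +
        (W i 0 * W j 1 - W i 1 * W j 0) ^ 2 := by
    intro j
    rw [← hW.quad _ _ _ (2 * ((W i 1 * W j 2 - W i 2 * W j 1) * (W i 2 * W j 0 - W i 0 * W j 2)))
      (2 * ((W i 1 * W j 2 - W i 2 * W j 1) * (W i 0 * W j 1 - W i 1 * W j 0)))
      (2 * ((W i 2 * W j 0 - W i 0 * W j 2) * (W i 0 * W j 1 - W i 1 * W j 0)))]
    refine Finset.sum_congr rfl fun k _ => ?_
    simp only [det3]; ring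
  simp only [h1]
  have h2 := hW.quad (W i 1 ^ 2 + W i 2 ^ 2) (W i 0 ^ 2 + W i 2 ^ 2) (W i 0 ^ 2 + W i 1 ^ 2)
    (-2 * (W i 0 * W i 1)) (-2 * (W i 0 * W i 2)) (-2 * (W i 1 * W i 2))
  rw [show 2 * (W i 0 ^ 2 + W i 1 ^ 2 + W i 2 ^ 2) = W i 1 ^ 2 + W i 2 ^ 2 +
    (W i 0 ^ 2 + W i 2 ^ 2) + (W i 0 ^ 2 + W i 1 ^ 2) by ring, ← h2]
  refine Finset.sum_congr rfl fun j _ => ?_
  ring

theorem OrthRows.T2_eq {W : ℕ → Fin 3 → ℝ} (hW : OrthRows W) : T2 W = 6 := by
  have : T2 W = ∑ i ∈ range 7, TA W i := rfl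
  rw [this]
  simp only [hW.TA_eq]
  have h := hW.quad 2 2 2 0 0 0
  rw [show (6 : ℝ) = 2 + 2 + 2 by norm_num, ← h]
  refine Finset.sum_congr rfl fun j _ => ?_
  ring

/-- Upper bound for equal-norm frames. -/
theorem equal_norm_bound {W : ℕ → Fin 3 → ℝ} (hW : OrthRows W) (q : ℝ)
    (hq : ∀ i < 7, W i 0 ^ 2 + W i 1 ^ 2 + W i 2 ^ 2 = q) : (T1 W / 6) ^ 2 ≤ 31395 / 1000 := by
  have h := MI_all W
  have hq7 : 7 * q = 3 := by
    have h1 := hW.quad 1 1 1 0 0 0
    have h2 : ∑ i ∈ range 7, (1 * (W i 0 * W i 0) + 1 * (W i 1 * W i 1) + 1 * (W i 2 * W i 2) +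
      0 * (W i 0 * W i 1) + 0 * (W i 0 * W i 2) + 0 * (W i 1 * W i 2)) = ∑ i ∈ range 7, q := by
      refine Finset.sum_congr rfl fun i hi => ?_
      rw [← hq i (mem_range.1 hi)]; ring
    rw [h2] at h1
    simp at h1
    linarith
  have h3 : ∑ i ∈ range 7, |TA W i / 2 - 3 / 7 * (T2 W / 6)| = 0 := by
    apply Finset.sum_eq_zero
    intro i hi
    rw [hW.TA_eq, hW.T2_eq, hq i (mem_range.1 hi)]
    rw [abs_eq_zero]
    linarith
  unfold MI at h
  rw [h3, hW.T2_eq] at h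
  linarith

/-! ### The explicit subspace -/

/-- Rows spanning the explicit subspace. -/
def rowR : Fin 3 → Fin 7 → ℝ :=
  ![![1, 11, 12, -3, -12, -5, 3], ![11, -12, -7, 2, 2, 11, 7], ![2, -11, 1, 12, 6, -2, 9]]

/-- Columns of the explicit matrix. -/
def colR (i : Fin 7) : Fin 3 → ℝ := fun m => rowR m i

theorem minors_colR : ∑ n ∈ range 35, |minors (ext7 colR) n| = 36307 := by
  simp only [Finset.sum_range_succ, Finset.sum_range_zero, minors, tri, List.getD_cons_zero,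
    List.getD_cons_succ, ext7, det3, colR, rowR]
  simp only [show Fin.ofNat 7 0 = 0 from rfl, show Fin.ofNat 7 1 = 1 from rfl,
    show Fin.ofNat 7 2 = 2 from rfl, show Fin.ofNat 7 3 = 3 from rfl,
    show Fin.ofNat 7 4 = 4 from rfl, show Fin.ofNat 7 5 = 5 from rfl,
    show Fin.ofNat 7 6 = 6 from rfl, Matrix.cons_val_zero, Matrix.cons_val_one, Matrix.cons_val]
  norm_num

theorem gram_colR : ∀ m m' : Fin 3, ∑ i ∈ range 7, ext7 colR i m * ext7 colR i m' =
    (![![453, -269, -178], ![-269, 492, 224], ![-178, 224, 391]] : Fin 3 → Fin 3 → ℝ) m m' := by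
  intro m m'
  simp only [Finset.sum_range_succ, Finset.sum_range_zero, ext7, colR, rowR]
  simp only [show Fin.ofNat 7 0 = 0 from rfl, show Fin.ofNat 7 1 = 1 from rfl,
    show Fin.ofNat 7 2 = 2 from rfl, show Fin.ofNat 7 3 = 3 from rfl,
    show Fin.ofNat 7 4 = 4 from rfl, show Fin.ofNat 7 5 = 5 from rfl,
    show Fin.ofNat 7 6 = 6 from rfl]
  fin_cases m <;> fin_cases m' <;> simp <;> norm_num

theorem det3_mul (C : Fin 3 → Fin 3 → ℝ) (x y z x' y' z' : Fin 3 → ℝ)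
    (hx : ∀ m, x' m = ∑ j, C m j * x j) (hy : ∀ m, y' m = ∑ j, C m j * y j)
    (hz : ∀ m, z' m = ∑ j, C m j * z j) :
    det3 x' y' z' = det3 (C 0) (C 1) (C 2) * det3 x y z := by
  simp only [det3, hx, hy, hz, Fin.sum_univ_three]
  ring

/-- Lower bound for the explicit subspace. -/
theorem lower_bound (H : Submodule ℝ (EuclideanSpace ℝ (Fin 7)))
    (b : OrthonormalBasis (Fin 3) ℝ H) (C : Fin 3 → Fin 3 → ℝ)
    (hC : ∀ i m, colR i m = ∑ j, C m j * col H b i j) :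
    31395 / 1000 < (T1 (ext7 (col H b)) / 6) ^ 2 := by
  have hW : OrthRows (ext7 (col H b)) := col_orth H b
  set W := ext7 (col H b) with hWdef
  set D := det3 (C 0) (C 1) (C 2) with hD
  have hRW : ∀ n m, ext7 colR n m = ∑ j, C m j * W n j := fun n m => hC _ m
  have h1 : ∀ n, minors (ext7 colR) n = D * minors W n := by
    intro n
    unfold minors
    exact det3_mul C _ _ _ _ _ _ (hRW _) (hRW _) (hRW _)
  have h2 : |D| * (T1 W / 6) = 36307 := by
    rw [← minors_colR, T1_eq]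
    simp only [h1, abs_mul, ← Finset.mul_sum]
    ring
  have hG : ∀ m m', ∑ i ∈ range 7, ext7 colR i m * ext7 colR i m' = ∑ j, C m j * C m' j := by
    intro m m'
    have h3 := hW.quad (C m 0 * C m' 0) (C m 1 * C m' 1) (C m 2 * C m' 2)
      (C m 0 * C m' 1 + C m 1 * C m' 0) (C m 0 * C m' 2 + C m 2 * C m' 0)
      (C m 1 * C m' 2 + C m 2 * C m' 1)
    rw [Fin.sum_univ_three, ← h3]
    refine Finset.sum_congr rfl fun i _ => ?_
    rw [hRW, hRW, Fin.sum_univ_three, Fin.sum_univ_three]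
    ring
  have hDsq : D ^ 2 = 41984245 := by
    have e : ∀ m m', ∑ j, C m j * C m' j =
        (![![453, -269, -178], ![-269, 492, 224], ![-178, 224, 391]] : Fin 3 → Fin 3 → ℝ) m m' :=
      fun m m' => by rw [← hG, gram_colR]
    have e00 := e 0 0
    have e01 := e 0 1
    have e02 := e 0 2
    have e11 := e 1 1
    have e12 := e 1 2
    have e22 := e 2 2
    simp only [Fin.sum_univ_three] at e00 e01 e02 e11 e12 e22
    simp at e00 e01 e02 e11 e12 e22
    have h4 : D ^ 2 =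
        (C 0 0 * C 0 0 + C 0 1 * C 0 1 + C 0 2 * C 0 2) *
          ((C 1 0 * C 1 0 + C 1 1 * C 1 1 + C 1 2 * C 1 2) *
            (C 2 0 * C 2 0 + C 2 1 * C 2 1 + C 2 2 * C 2 2) -
            (C 1 0 * C 2 0 + C 1 1 * C 2 1 + C 1 2 * C 2 2) ^ 2) -
        (C 0 0 * C 1 0 + C 0 1 * C 1 1 + C 0 2 * C 1 2) *
          ((C 0 0 * C 1 0 + C 0 1 * C 1 1 + C 0 2 * C 1 2) *
            (C 2 0 * C 2 0 + C 2 1 * C 2 1 + C 2 2 * C 2 2) -
            (C 1 0 * C 2 0 + C 1 1 * C 2 1 + C 1 2 * C 2 2) *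
            (C 0 0 * C 2 0 + C 0 1 * C 2 1 + C 0 2 * C 2 2)) +
        (C 0 0 * C 2 0 + C 0 1 * C 2 1 + C 0 2 * C 2 2) *
          ((C 0 0 * C 1 0 + C 0 1 * C 1 1 + C 0 2 * C 1 2) *
            (C 1 0 * C 2 0 + C 1 1 * C 2 1 + C 1 2 * C 2 2) -
            (C 1 0 * C 1 0 + C 1 1 * C 1 1 + C 1 2 * C 1 2) *
            (C 0 0 * C 2 0 + C 0 1 * C 2 1 + C 0 2 * C 2 2)) := by
      rw [hD]
      simp only [det3]
      ring
    rw [h4, e00, e01, e02, e11, e12, e22]
    norm_num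
  have h5 : D ^ 2 * (T1 W / 6) ^ 2 = 36307 ^ 2 := by
    rw [← h2, mul_pow, sq_abs]
  rw [hDsq] at h5
  nlinarith

end Pool.Agent.Work.MP_416390_gt
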