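import Pool.Agent.Work.MP_416390_gt.ClassBound

set_option autoImplicit false

open Finset

namespace Pool.Agent.Work.MP_416390_gt

/-! ### Invariance under signed permutations -/

theorem sum_perm {σ : ℕ → ℕ} (h1 : ∀ i < 7, σ i < 7) (h2 : ∀ j < 7, ∃ i < 7, σ i = j)
    (f : ℕ → ℝ) : ∑ i ∈ range 7, f (σ i) = ∑ i ∈ range 7, f i := by
  have himg : (range 7).image σ = range 7 := by
    ext j
    simp only [Finset.mem_image, mem_range]
    constructor
    · rintro ⟨i, hi, rfl⟩; exact h1 i hi
    · intro hj; exact h2 j hj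
  have hinj : Set.InjOn σ (range 7 : Finset ℕ) := by
    apply Finset.injOn_of_card_image_eq
    rw [himg]
  conv_rhs => rw [← himg]
  rw [Finset.sum_image hinj]

theorem det3_smul (r s t : ℝ) (a b c : Fin 3 → ℝ) :
    det3 (r • a) (s • b) (t • c) = (r * (s * t)) * det3 a b c := by
  simp only [det3, Pi.smul_apply, smul_eq_mul]; ring

theorem MI_of_signedPerm {σ : ℕ → ℕ} (h1 : ∀ i < 7, σ i < 7) (h2 : ∀ j < 7, ∃ i < 7, σ i = j)
    {s : ℕ → ℝ} (hs : ∀ i, s i ^ 2 = 1) (V : ℕ → Fin 3 → ℝ)
    (h : MI (fun i => s i • V (σ i))) : MI V := by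
  have habs : ∀ i, |s i| = 1 := fun i =>
    (sq_eq_sq₀ (abs_nonneg _) zero_le_one).1 (by rw [sq_abs, hs]; norm_num)
  have e1 : T1 (fun i => s i • V (σ i)) = T1 V := by
    unfold T1
    rw [← sum_perm h1 h2 (fun i => ∑ j ∈ range 7, ∑ k ∈ range 7, |det3 (V i) (V j) (V k)|)]
    refine Finset.sum_congr rfl fun i _ => ?_
    rw [← sum_perm h1 h2 (fun j => ∑ k ∈ range 7, |det3 (V (σ i)) (V j) (V k)|)]
    refine Finset.sum_congr rfl fun j _ => ?_
    rw [← sum_perm h1 h2 (fun k => |det3 (V (σ i)) (V (σ j)) (V k)|)]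
    refine Finset.sum_congr rfl fun k _ => ?_
    rw [det3_smul, abs_mul, abs_mul, abs_mul, habs, habs, habs]; ring
  have e3 : ∀ i, TA (fun i => s i • V (σ i)) i = TA V (σ i) := by
    intro i
    unfold TA
    rw [← sum_perm h1 h2 (fun j => ∑ k ∈ range 7, det3 (V (σ i)) (V j) (V k) ^ 2)]
    refine Finset.sum_congr rfl fun j _ => ?_
    rw [← sum_perm h1 h2 (fun k => det3 (V (σ i)) (V (σ j)) (V k) ^ 2)]
    refine Finset.sum_congr rfl fun k _ => ?_
    rw [det3_smul, mul_pow, mul_pow, mul_pow, hs, hs, hs]; ring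
  have e2 : T2 (fun i => s i • V (σ i)) = T2 V := by
    have : ∀ W : ℕ → Fin 3 → ℝ, T2 W = ∑ i ∈ range 7, TA W i := fun W => rfl
    rw [this, this, ← sum_perm h1 h2 (fun i => TA V i)]
    exact Finset.sum_congr rfl fun i _ => e3 i
  unfold MI at h ⊢
  rw [e1, e2] at h
  rw [← sum_perm h1 h2 (fun i => |TA V i / 2 - 3 / 7 * (T2 V / 6)|)]
  simpa only [e3] using h

/-! ### Soundness of the search -/

/-- `L` satisfies the constraint `c`. -/
def Sat (L : List Bool) (c : ℕ × ℕ × ℕ) : Prop :=
  L.getD c.1 false = L.getD c.2.2 false → L.getD c.2.1 false = L.getD c.1 false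

theorem getD_append_left {L M : List Bool} {x : ℕ} (hx : x < L.length) :
    (L ++ M).getD x false = L.getD x false := by
  simp [List.getD, List.getElem?_append_left hx]

theorem not_viol {L M : List Bool} {cs : List (ℕ × ℕ × ℕ)} (h : ∀ c ∈ cs, Sat (L ++ M) c) :
    cs.any (viol L) = false := by
  rw [List.any_eq_false]
  intro c hc hv
  have hsat := h c hc
  simp only [viol, Bool.and_eq_true, Nat.blt_eq, beq_iff_eq, bne_iff_ne] at hv
  obtain ⟨⟨⟨h1, h2⟩, h3⟩, h4, h5⟩ := hv
  unfold Sat at hsat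
  rw [getD_append_left h1, getD_append_left h2, getD_append_left h3] at hsat
  exact h5 (hsat h4)

theorem dfs_sound (css : List (List (ℕ × ℕ × ℕ))) (L : List Bool) (ns rest : List ℕ)
    (h : dfs css L ns = some rest) (L' : List Bool) (hlen : L'.length = css.length)
    (hsat : ∀ cs ∈ css, ∀ c ∈ cs, Sat (L ++ L') c) : ∃ n, leafOK n (L ++ L') = true := by
  induction css generalizing L ns rest L' with
  | nil =>
    obtain rfl : L' = [] := by simpa using hlen
    cases ns with
    | nil => simp [dfs] at h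
    | cons n ns =>
      refine ⟨n, ?_⟩
      by_contra hcon
      rw [Bool.not_eq_true] at hcon
      simp only [List.append_nil] at hcon
      simp [dfs, hcon] at h
  | cons cs css ih =>
    cases L' with
    | nil => simp at hlen
    | cons b L'' =>
      have hlen' : L''.length = css.length := by simpa using hlen
      have hcs : ∀ c ∈ cs, Sat ((L ++ [b]) ++ L'') c := by
        intro c hc
        have := hsat cs (by simp) c hc
        simpa using this
      have hcss : ∀ cs' ∈ css, ∀ c ∈ cs', Sat ((L ++ [b]) ++ L'') c := by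
        intro cs' hcs' c hc
        have := hsat cs' (by simp [hcs']) c hc
        simpa using this
      have hnv := not_viol hcs
      unfold dfs at h
      split at h
      · simp at h
      · rename_i ns' heq
        cases b with
        | false =>
          rw [hnv] at heq
          simp only [cond_false] at heq
          obtain ⟨n, hn⟩ := ih _ _ _ heq L'' hlen' hcss
          exact ⟨n, by simpa using hn⟩
        | true =>
          rw [hnv] at h
          simp only [cond_false] at h
          obtain ⟨n, hn⟩ := ih _ _ _ h L'' hlen' hcss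
          exact ⟨n, by simpa using hn⟩

/-! ### Signs -/

theorem sgI_xor (a b : Bool) : sgI (xor a b) = sgI a * sgI b := by
  cases a <;> cases b <;> simp [sgI]

theorem blt_eq (x y : ℕ) : Nat.blt x y = decide (x < y) := by
  by_cases h : x < y
  · simp [h]
  · have : ¬ (Nat.blt x y = true) := by simpa using h
    simp [h, this]

theorem det3_pidxB (V : ℕ → Fin 3 → ℝ) {i j k : ℕ} (hi : i < 7) (hj : j < 7) (hk : k < 7)
    (hij : i ≠ j) (hjk : j ≠ k) (hik : i ≠ k) :
    det3 (V i) (V j) (V k) = (sgI (pidxB i j k).1 : ℝ) * minors V (pidxB i j k).2 := by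
  unfold pidxB
  simp only [blt_eq]
  rcases lt_or_gt_of_ne hij with h1 | h1 <;> rcases lt_or_gt_of_ne hjk with h2 | h2 <;>
    rcases lt_or_gt_of_ne hik with h3 | h3
  · simp only [h1, h2, decide_true, cond_true, sgI]
    rw [minors_rk V h1 h2 hk]; simp
  · omega
  · simp only [h1, not_lt.2 h2.le, h3, decide_true, decide_false, cond_true, cond_false, sgI]
    rw [minors_rk V h3 h2 hj]; simp only [det3]; norm_num; ring
  · simp only [h1, not_lt.2 h2.le, not_lt.2 h3.le, decide_true, decide_false, cond_true,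
      cond_false, sgI]
    rw [minors_rk V h3 h1 hj]; simp only [det3]; norm_num; ring
  · simp only [not_lt.2 h1.le, h3, decide_true, decide_false, cond_true, cond_false, sgI]
    rw [minors_rk V h1 h3 hk]; simp only [det3]; norm_num; ring
  · simp only [not_lt.2 h1.le, h2, not_lt.2 h3.le, decide_true, decide_false, cond_true,
      cond_false, sgI]
    rw [minors_rk V h2 h3 hi]; simp only [det3]; norm_num; ring
  · omega
  · simp only [not_lt.2 h1.le, not_lt.2 h2.le, not_lt.2 h3.le, decide_false, cond_false, sgI]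
    rw [minors_rk V h2 h1 hi]; simp only [det3]; norm_num; ring

theorem checkTri_sound (L : List Bool) (g : Bool) (sg : ℕ → Bool) (pm : ℕ → ℕ) (es : List Bool)
    (T : List (ℕ × ℕ × ℕ)) (h : checkTri L g sg pm es T = true) :
    ∀ t < T.length, es.getD t false = xor g (xor (sg (T.getD t (0,0,0)).1)
      (xor (sg (T.getD t (0,0,0)).2.1) (xor (sg (T.getD t (0,0,0)).2.2)
        (chiB L (pidxB (pm (T.getD t (0,0,0)).1) (pm (T.getD t (0,0,0)).2.1)
          (pm (T.getD t (0,0,0)).2.2)))))) := by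
  induction T generalizing es with
  | nil => intro t ht; simp at ht
  | cons x T ih =>
    obtain ⟨i, j, k⟩ := x
    cases es with
    | nil => simp [checkTri] at h
    | cons e es =>
      simp only [checkTri, Bool.and_eq_true, beq_iff_eq] at h
      obtain ⟨h1, h2⟩ := h
      intro t ht
      cases t with
      | zero => simpa using h1
      | succ t =>
        have := ih es h2 t (by simpa using ht)
        simpa using this

theorem tri_valid : ∀ t < 35, (tri.getD t (0,0,0)).1 < (tri.getD t (0,0,0)).2.1 ∧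
    (tri.getD t (0,0,0)).2.1 < (tri.getD t (0,0,0)).2.2 ∧ (tri.getD t (0,0,0)).2.2 < 7 := by
  decide

theorem pidxB_lt : ∀ i < 7, ∀ j < 7, ∀ k < 7, i = j ∨ j = k ∨ i = k ∨
    (pidxB i j k).2 < 35 := by decide +kernel

theorem rk_lt' : ∀ c < 7, ∀ b < c, ∀ a < b, rk a b c < 35 := by decide

theorem tri_zero : ∀ t < 15, (tri.getD t (0,0,0)).1 = 0 := by decide

def quads : List (ℕ × ℕ × ℕ × ℕ) :=
  [(1,2,3,4),(1,2,3,5),(1,2,3,6),(1,2,4,5),(1,2,4,6),(1,2,5,6),(1,3,4,5),(1,3,4,6),(1,3,5,6),
   (1,4,5,6),(2,3,4,5),(2,3,4,6),(2,3,5,6),(2,4,5,6),(3,4,5,6)]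

theorem quads_valid : ∀ q ∈ quads, 0 < q.1 ∧ q.1 < q.2.1 ∧ q.2.1 < q.2.2.1 ∧ q.2.2.1 < q.2.2.2 ∧
    q.2.2.2 < 7 := by decide

theorem cons_form : ∀ cs ∈ cons, ∀ c ∈ cs, ∃ q ∈ quads,
    (15 + c.1 = rk q.1 q.2.1 q.2.2.1 ∧ 15 + c.2.1 = rk q.1 q.2.1 q.2.2.2 ∧
      15 + c.2.2 = rk q.1 q.2.2.1 q.2.2.2) ∨
    (15 + c.1 = rk q.1 q.2.1 q.2.2.2 ∧ 15 + c.2.1 = rk q.1 q.2.2.1 q.2.2.2 ∧
      15 + c.2.2 = rk q.2.1 q.2.2.1 q.2.2.2) ∨
    (15 + c.1 = rk q.1 q.2.1 q.2.2.1 ∧ 15 + c.2.1 = rk q.1 q.2.1 q.2.2.2 ∧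
      15 + c.2.2 = rk q.2.1 q.2.2.1 q.2.2.2) ∨
    (15 + c.1 = rk q.1 q.2.1 q.2.2.1 ∧ 15 + c.2.1 = rk q.1 q.2.2.1 q.2.2.2 ∧
      15 + c.2.2 = rk q.2.1 q.2.2.1 q.2.2.2) := by decide +kernel

/-- `V` is normalized: `[0 i j] > 0` for `0 < i < j`, `[1 2 3] > 0` and all minors are nonzero. -/
structure Normalized (V : ℕ → Fin 3 → ℝ) : Prop where
  pos : ∀ i j, 0 < i → i < j → j < 7 → 0 < det3 (V 0) (V i) (V j)
  pos123 : 0 < det3 (V 1) (V 2) (V 3)
  ne : ∀ i j k, i < j → j < k → k < 7 → det3 (V i) (V j) (V k) ≠ 0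

noncomputable def signTable (V : ℕ → Fin 3 → ℝ) : List Bool :=
  (List.range 20).map fun m => decide (minors V (15 + m) < 0)

theorem signTable_getD (V : ℕ → Fin 3 → ℝ) {m : ℕ} (hm : m < 20) :
    (signTable V).getD m false = decide (minors V (15 + m) < 0) := by
  simp [signTable, List.getD, hm]

/-- Sign between-ness. -/
theorem between {p q r x y z : ℝ} (hp : 0 < p) (hq : 0 < q) (hr : 0 < r) (hx : x ≠ 0)
    (hy : y ≠ 0) (hz : z ≠ 0) (h : r * y = p * x + q * z) (hxz : decide (x < 0) = decide (z < 0)) :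
    decide (y < 0) = decide (x < 0) := by
  rw [decide_eq_decide] at hxz ⊢
  constructor
  · intro hy0
    by_contra hx0
    have hx1 : 0 < x := lt_of_le_of_ne (not_lt.1 hx0) hx.symm
    have hz1 : 0 < z := lt_of_le_of_ne (not_lt.1 (fun h => hx0 (hxz.2 h))) hz.symm
    have := mul_pos hp hx1
    have := mul_pos hq hz1
    have := mul_neg_of_pos_of_neg hr hy0
    linarith
  · intro hx0
    have hz0 := hxz.1 hx0
    by_contra hy0
    have hy1 : 0 < y := lt_of_le_of_ne (not_lt.1 hy0) hy.symm
    have := mul_neg_of_pos_of_neg hp hx0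
    have := mul_neg_of_pos_of_neg hq hz0
    have := mul_pos hr hy1
    linarith

theorem signTable_sat {V : ℕ → Fin 3 → ℝ} (hV : Normalized V) :
    ∀ cs ∈ cons, ∀ c ∈ cs, Sat (signTable V) c := by
  intro cs hcs c hc
  obtain ⟨q, hq, h⟩ := cons_form cs hcs c hc
  obtain ⟨h1, h2, h3, h4, h5⟩ := quads_valid q hq
  obtain ⟨a, b, c', d⟩ := q
  simp only at h1 h2 h3 h4 h5 h
  have hab := hV.pos a b h1 h2 (by omega)
  have hac := hV.pos a c' h1 (by omega) (by omega)
  have had := hV.pos a d h1 (by omega) (by omega)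
  have hbc := hV.pos b c' (by omega) (by omega) (by omega)
  have hbd := hV.pos b d (by omega) (by omega) (by omega)
  have hcd := hV.pos c' d (by omega) (by omega) (by omega)
  have nabc := hV.ne a b c' h2 h3 (by omega)
  have nabd := hV.ne a b d h2 (by omega) (by omega)
  have nacd := hV.ne a c' d (by omega) (by omega) (by omega)
  have nbcd := hV.ne b c' d (by omega) (by omega) (by omega)
  have mabc := minors_rk V h2 h3 (show c' < 7 by omega)
  have mabd := minors_rk V h2 (show b < d by omega) (show d < 7 by omega)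
  have macd := minors_rk V (show a < c' by omega) h4 (show d < 7 by omega)
  have mbcd := minors_rk V h3 h4 (show d < 7 by omega)
  have rabc := rk_lt' c' (by omega) b h3 a h2
  have rabd := rk_lt' d (by omega) b (by omega) a h2
  have racd := rk_lt' d (by omega) c' h4 a (by omega)
  have rbcd := rk_lt' d (by omega) c' h4 b h3
  unfold Sat
  rcases h with ⟨e1, e2, e3⟩ | ⟨e1, e2, e3⟩ | ⟨e1, e2, e3⟩ | ⟨e1, e2, e3⟩
  · rw [signTable_getD V (m := c.1) (by omega), signTable_getD V (m := c.2.1) (by omega),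
      signTable_getD V (m := c.2.2) (by omega), e1, e2, e3, mabc, mabd, macd]
    exact between had hab hac nabc nabd nacd (by simp only [det3]; ring)
  · rw [signTable_getD V (m := c.1) (by omega), signTable_getD V (m := c.2.1) (by omega),
      signTable_getD V (m := c.2.2) (by omega), e1, e2, e3, mabd, macd, mbcd]
    exact between hcd had hbd nabd nacd nbcd (by simp only [det3]; ring)
  · rw [signTable_getD V (m := c.1) (by omega), signTable_getD V (m := c.2.1) (by omega),
      signTable_getD V (m := c.2.2) (by omega), e1, e2, e3, mabc, mabd, mbcd]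
    exact between hbd hab hbc nabc nabd nbcd (by simp only [det3]; ring)
  · rw [signTable_getD V (m := c.1) (by omega), signTable_getD V (m := c.2.1) (by omega),
      signTable_getD V (m := c.2.2) (by omega), e1, e2, e3, mabc, macd, mbcd]
    exact between hcd hac hbc nabc nacd nbcd (by simp only [det3]; ring)

theorem pmOf_lt (n i : ℕ) : pmOf n i < 7 := Nat.mod_lt _ (by norm_num)

theorem surj7_sound {pm : ℕ → ℕ} (h : surj7 pm = true) : ∀ j < 7, ∃ i < 7, pm i = j := by
  intro j hj
  simp only [surj7, List.all_eq_true, List.any_eq_true, List.mem_range] at h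
  obtain ⟨i, hi, h⟩ := h j hj
  exact ⟨i, hi, Nat.eq_of_beq_eq_true h⟩

theorem minor_sign {V : ℕ → Fin 3 → ℝ} (hV : Normalized V) {n : ℕ} (hn : n < 35) :
    0 < (sgI (bif Nat.blt n 15 then false else (signTable V).getD (n - 15) false) : ℝ) *
      minors V n := by
  obtain ⟨h1, h2, h3⟩ := tri_valid n hn
  by_cases h15 : n < 15
  · have hb : Nat.blt n 15 = true := by simpa using h15
    rw [hb]
    simp only [cond_true, sgI]
    have h0 := tri_zero n h15
    have := hV.pos _ _ (show 0 < (tri.getD n (0,0,0)).2.1 by omega) h2 h3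
    unfold minors
    rw [h0]
    simpa using this
  · have hb : Nat.blt n 15 = false := by
      rw [blt_eq]; simpa using h15
    rw [hb]
    simp only [cond_false]
    rw [signTable_getD V (m := n - 15) (by omega), show 15 + (n - 15) = n by omega]
    have hne : minors V n ≠ 0 := hV.ne _ _ _ h1 h2 h3
    rcases lt_or_gt_of_ne hne with h | h
    · simp [sgI, h]
    · simp [sgI, not_lt.2 h.le, h]

theorem MI_of_normalized {V : ℕ → Fin 3 → ℝ} (hV : Normalized V) : MI V := by
  have hdfs := dfs_ok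
  rw [Option.isSome_iff_exists] at hdfs
  obtain ⟨rest, hrest⟩ := hdfs
  -- the sign table starts with `false`
  have hL : signTable V = [false] ++ (signTable V).tail := by
    have h0 : (signTable V).getD 0 false = false := by
      rw [signTable_getD V (by norm_num)]
      have : minors V (15 + 0) = det3 (V 1) (V 2) (V 3) := rfl
      rw [this]
      simpa using hV.pos123.le
    have hlen : (signTable V).length = 20 := by simp [signTable]
    cases h : signTable V with
    | nil => rw [h] at hlen; simp at hlen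
    | cons b T =>
      rw [h] at h0
      simp only [List.getD_cons_zero] at h0
      simp [h0]
  obtain ⟨n, hn⟩ := dfs_sound _ _ _ _ hrest (signTable V).tail
    (by simp [signTable, cons]) (by
      intro cs hcs c hc
      rw [← hL]
      exact signTable_sat hV cs (List.mem_of_mem_tail hcs) c hc)
  rw [← hL] at hn
  simp only [leafOK, Bool.and_eq_true] at hn
  obtain ⟨hsurj, hchk⟩ := hn
  have hsurj' := surj7_sound hsurj
  have hinj : ∀ i < 7, ∀ j < 7, i ≠ j → pmOf n i ≠ pmOf n j := by
    have himg : (range 7).image (pmOf n) = range 7 := by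
      ext j
      simp only [Finset.mem_image, mem_range]
      constructor
      · rintro ⟨i, hi, rfl⟩; exact pmOf_lt n i
      · intro hj; exact hsurj' j hj
    have hinj : Set.InjOn (pmOf n) (range 7 : Finset ℕ) := by
      apply Finset.injOn_of_card_image_eq
      rw [himg]
    intro i hi j hj hij h
    exact hij (hinj (by simpa using hi) (by simpa using hj) h)
  apply MI_of_signedPerm (σ := pmOf n) (fun i _ => pmOf_lt n i) hsurj'
    (s := fun i => (sgI (sgOf n i) : ℝ)) (fun i => sgI_sq _)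
  apply class_bound (c := n % 11) (Nat.mod_lt _ (by norm_num)) _ (sgI (sgOf n 7) : ℝ) (sgI_sq _)
  intro t ht
  have h1 := checkTri_sound _ _ _ _ _ _ hchk t (by simpa [tri] using ht)
  obtain ⟨v1, v2, v3⟩ := tri_valid t ht
  rw [h1]
  unfold minors
  set i := (tri.getD t (0,0,0)).1
  set j := (tri.getD t (0,0,0)).2.1
  set k := (tri.getD t (0,0,0)).2.2
  have nij := hinj i (by omega) j (by omega) (by omega)
  have njk := hinj j (by omega) k (by omega) (by omega)
  have nik := hinj i (by omega) k (by omega) (by omega)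
  rw [det3_smul, det3_pidxB V (pmOf_lt n i) (pmOf_lt n j) (pmOf_lt n k) nij njk nik]
  have hlt : (pidxB (pmOf n i) (pmOf n j) (pmOf n k)).2 < 35 := by
    rcases pidxB_lt _ (pmOf_lt n i) _ (pmOf_lt n j) _ (pmOf_lt n k) with h | h | h | h
    · exact absurd h nij
    · exact absurd h njk
    · exact absurd h nik
    · exact h
  have hms := minor_sign hV hlt
  set u := pidxB (pmOf n i) (pmOf n j) (pmOf n k) with hu
  have hchi : chiB (signTable V) u =
      xor u.1 (bif Nat.blt u.2 15 then false else (signTable V).getD (u.2 - 15) false) := by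
    unfold chiB
    cases h : Nat.blt u.2 15 <;> simp [h]
  rw [hchi]
  set w := (bif Nat.blt u.2 15 then false else (signTable V).getD (u.2 - 15) false)
  simp only [sgI_xor]
  push_cast
  have s0 := sgI_sq (sgOf n 7)
  have s1 := sgI_sq (sgOf n i)
  have s2 := sgI_sq (sgOf n j)
  have s3 := sgI_sq (sgOf n k)
  have s4 := sgI_sq u.1
  have key : (sgI (sgOf n 7) : ℝ) * ((sgI (sgOf n 7) : ℝ) * (sgI (sgOf n i) * (sgI (sgOf n j) *
      (sgI (sgOf n k) * (sgI u.1 * sgI w))))) *
      ((sgI (sgOf n i) : ℝ) * (sgI (sgOf n j) * sgI (sgOf n k)) * (sgI u.1 * minors V u.2)) =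
      sgI w * minors V u.2 := by
    calc _ = (sgI (sgOf n 7) : ℝ) ^ 2 * (sgI (sgOf n i) : ℝ) ^ 2 * (sgI (sgOf n j) : ℝ) ^ 2 *
          (sgI (sgOf n k) : ℝ) ^ 2 * (sgI u.1 : ℝ) ^ 2 * (sgI w * minors V u.2) := by ring
      _ = _ := by rw [s0, s1, s2, s3, s4]; ring
  rw [key]
  exact hms.le

end Pool.Agent.Work.MP_416390_gt
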