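import Pool.Agent.Work.MP_416390_gt.Ineq

set_option autoImplicit false

open Finset Filter Topology

namespace Pool.Agent.Work.MP_416390_gt

/-- All minors with distinct columns are nonzero. -/
def Generic (V : ℕ → Fin 3 → ℝ) : Prop :=
  ∀ i < 7, ∀ j < 7, ∀ k < 7, i ≠ j → j ≠ k → i ≠ k → det3 (V i) (V j) (V k) ≠ 0

theorem Generic.signedPerm {V : ℕ → Fin 3 → ℝ} (hV : Generic V) {σ : ℕ → ℕ}
    (h1 : ∀ i < 7, σ i < 7) (hinj : ∀ i < 7, ∀ j < 7, i ≠ j → σ i ≠ σ j)
    {s : ℕ → ℝ} (hs : ∀ i, s i ≠ 0) : Generic (fun i => s i • V (σ i)) := by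
  intro i hi j hj k hk hij hjk hik
  rw [det3_smul]
  exact mul_ne_zero (mul_ne_zero (hs i) (mul_ne_zero (hs j) (hs k)))
    (hV _ (h1 i hi) _ (h1 j hj) _ (h1 k hk) (hinj i hi j hj hij) (hinj j hj k hk hjk)
      (hinj i hi k hk hik))

theorem MI_of_pos {V : ℕ → Fin 3 → ℝ} (hV : Generic V)
    (hpos : ∀ i j, 0 < i → i < j → j < 7 → 0 < det3 (V 0) (V i) (V j)) : MI V := by
  have hne := hV 1 (by norm_num) 2 (by norm_num) 3 (by norm_num) (by norm_num) (by norm_num)
    (by norm_num)
  rcases lt_or_gt_of_ne hne with h | h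
  · apply MI_of_signedPerm (σ := id) (fun i hi => hi) (fun j hj => ⟨j, hj, rfl⟩)
      (s := fun i => if i = 0 then 1 else -1) (fun i => by split_ifs <;> norm_num)
    apply MI_of_normalized
    refine ⟨?_, ?_, ?_⟩
    · intro i j hi hij hj
      have := hpos i j hi hij hj
      simp only [id]
      rw [det3_smul, if_neg hi.ne', if_neg (show ¬ j = 0 by omega)]
      simpa using this
    · simp only [id]
      rw [det3_smul, if_neg (by norm_num), if_neg (by norm_num), if_neg (by norm_num)]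
      linarith
    · intro i j k hij hjk hk
      exact (hV.signedPerm (σ := id) (fun i hi => hi) (fun i _ j _ h => h)
        (s := fun i => if i = 0 then 1 else -1) (fun i => by split_ifs <;> norm_num)) i (by omega)
        j (by omega) k hk (by omega) (by omega) (by omega)
  · apply MI_of_normalized
    exact ⟨hpos, h, fun i j k hij hjk hk => hV i (by omega) j (by omega) k hk (by omega)
      (by omega) (by omega)⟩

theorem MI_of_generic {V : ℕ → Fin 3 → ℝ} (hV : Generic V) : MI V := by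
  classical
  set s0 : ℕ → ℝ := fun i => if i < 2 then 1 else if 0 < det3 (V 0) (V 1) (V i) then 1 else -1
    with hs0
  have hs0sq : ∀ i, s0 i ^ 2 = 1 := by
    intro i
    simp only [hs0]
    split_ifs <;> norm_num
  have hs0ne : ∀ i, s0 i ≠ 0 := by
    intro i h
    have := hs0sq i
    rw [h] at this
    norm_num at this
  set U : ℕ → Fin 3 → ℝ := fun i => s0 i • V i with hU
  have hUgen : Generic U := hV.signedPerm (σ := id) (fun i hi => hi) (fun i _ j _ h => h) hs0ne
  have hY : ∀ i, 2 ≤ i → i < 7 → 0 < det3 (U 0) (U 1) (U i) := by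
    intro i hi hi7
    have hne := hV 0 (by norm_num) 1 (by norm_num) i hi7 (by norm_num) (by omega) (by omega)
    simp only [hU]
    rw [det3_smul]
    simp only [hs0]
    rw [if_pos (by norm_num), if_pos (by norm_num), if_neg (by omega)]
    split_ifs with h
    · simpa using h
    · have : det3 (V 0) (V 1) (V i) < 0 := lt_of_le_of_ne (not_lt.1 h) hne
      linarith
  set Y : ℕ → ℝ := fun i => det3 (U 0) (U 1) (U i) with hYdef
  set Z : ℕ → ℝ := fun i => det3 (U 0) (U 2) (U i) with hZdef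
  have hid : ∀ i j, det3 (U 0) (U i) (U j) * Y 2 = Y i * Z j - Y j * Z i := by
    intro i j
    simp only [hYdef, hZdef, det3]; ring
  set f : ℕ → ℝ := fun i => Z i / Y i with hf
  have hid2 : ∀ i j, 2 ≤ i → i < 7 → 2 ≤ j → j < 7 →
      det3 (U 0) (U i) (U j) * Y 2 = Y i * Y j * (f j - f i) := by
    intro i j hi hi7 hj hj7
    have h1 : Y i ≠ 0 := (hY i hi hi7).ne'
    have h2 : Y j ≠ 0 := (hY j hj hj7).ne'
    rw [hid, hf]
    field_simp
  set τ := Tuple.sort (fun m : Fin 5 => f (m + 2)) with hτ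
  have hmono : Monotone ((fun m : Fin 5 => f (m + 2)) ∘ τ) := Tuple.monotone_sort _
  set σ : ℕ → ℕ := fun i => if i < 2 then i else (τ ⟨(i - 2) % 5, Nat.mod_lt _ (by norm_num)⟩ : ℕ) + 2
    with hσ
  have hσlt : ∀ i < 7, σ i < 7 := by
    intro i hi
    simp only [hσ]
    split_ifs
    · exact hi
    · have := (τ ⟨(i - 2) % 5, Nat.mod_lt _ (by norm_num)⟩).2
      omega
  have hσge : ∀ i, 2 ≤ i → 2 ≤ σ i := by
    intro i hi
    simp only [hσ]
    rw [if_neg (by omega)]
    omega
  have hσsurj : ∀ j < 7, ∃ i < 7, σ i = j := by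
    intro j hj
    by_cases h : j < 2
    · exact ⟨j, hj, by simp only [hσ]; rw [if_pos h]⟩
    · refine ⟨(τ.symm ⟨j - 2, by omega⟩ : ℕ) + 2, by have := (τ.symm ⟨j - 2, by omega⟩).2; omega, ?_⟩
      simp only [hσ]
      rw [if_neg (by omega)]
      have h1 : (⟨((τ.symm ⟨j - 2, by omega⟩ : ℕ) + 2 - 2) % 5, Nat.mod_lt _ (by norm_num)⟩ : Fin 5)
          = τ.symm ⟨j - 2, by omega⟩ := by
        apply Fin.ext
        simp only [Nat.add_sub_cancel]
        exact Nat.mod_eq_of_lt (τ.symm ⟨j - 2, by omega⟩).2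
      rw [h1]
      simp only [Equiv.apply_symm_apply]
      omega
  have hσinj : ∀ i < 7, ∀ j < 7, i ≠ j → σ i ≠ σ j := by
    have himg : (range 7).image σ = range 7 := by
      ext j
      simp only [Finset.mem_image, mem_range]
      constructor
      · rintro ⟨i, hi, rfl⟩; exact hσlt i hi
      · intro hj; exact hσsurj j hj
    have hinj : Set.InjOn σ (range 7 : Finset ℕ) := by
      apply Finset.injOn_of_card_image_eq
      rw [himg]
    intro i hi j hj hij h
    exact hij (hinj (by simpa using hi) (by simpa using hj) h)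
  apply MI_of_signedPerm hσlt hσsurj (s := fun i => s0 (σ i)) (fun i => hs0sq _)
  apply MI_of_pos (hV.signedPerm hσlt hσinj fun i => hs0ne _)
  intro i j hi hij hj
  have e0 : σ 0 = 0 := rfl
  have e1 : σ 1 = 1 := rfl
  change 0 < det3 (U (σ 0)) (U (σ i)) (U (σ j))
  rw [e0]
  by_cases hi1 : i = 1
  · rw [hi1, e1]
    exact hY _ (hσge j (by omega)) (hσlt j hj)
  · have hi2 : 2 ≤ i := by omega
    have hj2 : 2 ≤ j := by omega
    have h3 := hid2 (σ i) (σ j) (hσge i hi2) (hσlt i (by omega)) (hσge j hj2) (hσlt j hj)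
    have h4 : f (σ i) ≤ f (σ j) := by
      have h5 : (⟨(i - 2) % 5, Nat.mod_lt _ (by norm_num)⟩ : Fin 5) ≤
          ⟨(j - 2) % 5, Nat.mod_lt _ (by norm_num)⟩ := by
        rw [Fin.le_def]
        simp only
        rw [Nat.mod_eq_of_lt (by omega), Nat.mod_eq_of_lt (by omega)]
        omega
      have h6 := hmono h5
      simp only [Function.comp] at h6
      simp only [hσ]
      rw [if_neg (by omega), if_neg (by omega)]
      exact h6
    have h7 : 0 ≤ det3 (U 0) (U (σ i)) (U (σ j)) := by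
      have h8 : 0 ≤ det3 (U 0) (U (σ i)) (U (σ j)) * Y 2 := by
        rw [h3]
        exact mul_nonneg (mul_nonneg (hY _ (hσge i hi2) (hσlt i (by omega))).le
          (hY _ (hσge j hj2) (hσlt j hj)).le) (sub_nonneg.2 h4)
      exact nonneg_of_mul_nonneg_left h8 (hY 2 le_rfl (by norm_num))
    refine lt_of_le_of_ne h7 (Ne.symm ?_)
    exact hUgen 0 (by norm_num) _ (hσlt i (by omega)) _ (hσlt j hj)
      (by have := hσge i hi2; omega) (hσinj i (by omega) j hj (by omega))
      (by have := hσge j hj2; omega)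

/-! ### Passing to the limit -/

/-- The moment curve. -/
def mom (i : ℕ) : Fin 3 → ℝ := ![1, (i : ℝ), (i : ℝ) ^ 2]

theorem det3_mom (i j k : ℕ) :
    det3 (mom i) (mom j) (mom k) = ((j : ℝ) - i) * ((k : ℝ) - i) * ((k : ℝ) - j) := by
  simp only [det3, mom, Matrix.cons_val_zero, Matrix.cons_val_one, Matrix.cons_val]
  ring

theorem det3_add_smul (a b c x y z : Fin 3 → ℝ) (t : ℝ) :
    det3 (a + t • x) (b + t • y) (c + t • z) =
      det3 a b c + (det3 x b c + det3 a y c + det3 a b z) * t +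
        (det3 a y z + det3 x b z + det3 x y c) * t ^ 2 + det3 x y z * t ^ 3 := by
  simp only [det3, Pi.add_apply, Pi.smul_apply, smul_eq_mul]; ring

theorem cubic_eventually_ne (c0 c1 c2 c3 : ℝ) (h : c3 ≠ 0) :
    ∀ᶠ t in 𝓝[≠] (0 : ℝ), c0 + c1 * t + c2 * t ^ 2 + c3 * t ^ 3 ≠ 0 := by
  let p : Polynomial ℝ := Polynomial.C c3 * Polynomial.X ^ 3 + Polynomial.C c2 * Polynomial.X ^ 2 +
    Polynomial.C c1 * Polynomial.X + Polynomial.C c0
  have hp : p ≠ 0 := by
    intro h0
    have h1 : p.coeff 3 = 0 := by rw [h0]; simp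
    have h2 : p.coeff 3 = c3 := by
      simp [p]
    exact h (h2 ▸ h1)
  have hfin := Polynomial.finite_setOfPred_isRoot hp
  have h1 : {t | p.IsRoot t}ᶜ ∈ 𝓝[≠] (0 : ℝ) := nhdsNE_le_cofinite (0 : ℝ) hfin.compl_mem_cofinite
  filter_upwards [h1] with t ht h2
  apply ht
  simp only [Set.mem_ofPred_eq, Polynomial.IsRoot, p]
  simp only [Polynomial.eval_add, Polynomial.eval_mul, Polynomial.eval_C, Polynomial.eval_pow,
    Polynomial.eval_X]
  linarith

theorem MI_all (V : ℕ → Fin 3 → ℝ) : MI V := by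
  have hev : ∀ᶠ t in 𝓝[≠] (0 : ℝ), Generic (fun i => V i + t • mom i) := by
    have h1 : ∀ᶠ t in 𝓝[≠] (0 : ℝ), ∀ i ∈ range 7, ∀ j ∈ range 7, ∀ k ∈ range 7,
        (i ≠ j ∧ j ≠ k ∧ i ≠ k) → det3 (V i + t • mom i) (V j + t • mom j) (V k + t • mom k) ≠ 0 := by
      rw [Filter.eventually_all_finset]
      intro i _
      rw [Filter.eventually_all_finset]
      intro j _
      rw [Filter.eventually_all_finset]
      intro k _
      by_cases h : i ≠ j ∧ j ≠ k ∧ i ≠ k
      · have hc : det3 (mom i) (mom j) (mom k) ≠ 0 := by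
          rw [det3_mom]
          obtain ⟨h1, h2, h3⟩ := h
          refine mul_ne_zero (mul_ne_zero ?_ ?_) ?_ <;> rw [sub_ne_zero] <;> norm_cast
          · exact h1.symm
          · exact h3.symm
          · exact h2.symm
        filter_upwards [cubic_eventually_ne (det3 (V i) (V j) (V k))
          (det3 (mom i) (V j) (V k) + det3 (V i) (mom j) (V k) + det3 (V i) (V j) (mom k))
          (det3 (V i) (mom j) (mom k) + det3 (mom i) (V j) (mom k) + det3 (mom i) (mom j) (V k))
          _ hc] with t ht _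
        rw [det3_add_smul]
        exact ht
      · exact Eventually.of_forall fun t h' => absurd h' h
    filter_upwards [h1] with t ht i hi j hj k hk hij hjk hik
    exact ht i (mem_range.2 hi) j (mem_range.2 hj) k (mem_range.2 hk) ⟨hij, hjk, hik⟩
  have hMI : ∀ᶠ t in 𝓝[≠] (0 : ℝ), MI (fun i => V i + t • mom i) := by
    filter_upwards [hev] with t ht using MI_of_generic ht
  have hc1 : Continuous fun t : ℝ => (T1 (fun i => V i + t • mom i) / 6) ^ 2 := by
    unfold T1 det3
    fun_prop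
  have hc2 : Continuous fun t : ℝ => 31395 / 1000 * (T2 (fun i => V i + t • mom i) / 6) +
    ∑ i ∈ range 7, |TA (fun i => V i + t • mom i) i / 2 -
      3 / 7 * (T2 (fun i => V i + t • mom i) / 6)| := by
    unfold T2 TA det3
    fun_prop
  have h0 := le_of_tendsto_of_tendsto ((hc1.tendsto 0).mono_left nhdsWithin_le_nhds)
    ((hc2.tendsto 0).mono_left nhdsWithin_le_nhds) hMI
  simpa [MI] using h0

end Pool.Agent.Work.MP_416390_gt
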